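import Mathlib
import Pool.Agent.Helper16.E3.SetT
import Pool.Agent.Helper16.E3.Reg2

/-!
# E-T (MP_12a1af_nt), phase 3: chunks made of one region of each scale
-/

variable [Pool.Agent.Helper29.E3.EpFn]

open Finset

namespace Pool.Agent.E3

open Pool.Agent.ETS (Hash exists_modEq_shift modEq_sub_of_mul)

/-- pair bound for the contents of two regions with the same bottom and top -/
def PBr (r r' : Rg) (B : ℕ) : Prop :=
  ∀ ν : ℕ, ((r.V ×ˢ r'.V).filter (fun q => r.c q.1 + r'.c q.2 ≡ ν [MOD 2 ^ r.len])).card ≤ B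

/-- weighted pair bound -/
def PBw (LF : Set (Finset (ℕ × ℕ))) (r r' : Rg) (B : ℕ) : Prop :=
  ∀ (ν : ℕ) (w : ℕ × ℕ → ℕ) (D : ℕ), WtLe LF w D →
    ∑ q ∈ (r.V ×ˢ r'.V).filter (fun q => r.c q.1 + r'.c q.2 ≡ ν [MOD 2 ^ r.len]),
      w (r.blk q.1, r'.blk q.2) ≤ B * lc D

lemma PBr.mono {r r' : Rg} {B B' : ℕ} (h : PBr r r' B) (hB : B ≤ B') : PBr r r' B' :=
  fun ν => (h ν).trans hB

lemma PBw.mono {LF : Set (Finset (ℕ × ℕ))} {r r' : Rg} {B B' : ℕ} (h : PBw LF r r' B)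
    (hB : B ≤ B') : PBw LF r r' B' :=
  fun ν w D hw => (h ν w D hw).trans (Nat.mul_le_mul_right _ hB)

lemma val_single {r : Rg} {h : Hash} {a : ℕ} :
    val [r] h [a] = 2 ^ r.bot * ((r.c a + h []) % 2 ^ r.len) := by
  simp [val]

lemma tau_single {r : Rg} {a : ℕ} : tau [r] [a] = r.blk a := by
  simp [tau]

/-- solutions for one region of each scale -/
lemma single_sol {r r' : Rg} (hb : r.bot = r'.bot) (ht : r.top = r'.top) (hle : r.bot ≤ r.top)
    (h h' : Hash) (ν : ℕ) : ∃ ν' : ℕ, ∀ q ∈ Sol [r] [r'] h h' r.top ν,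
      ∃ a a', q = ([a], [a']) ∧ (a, a') ∈ (r.V ×ˢ r'.V).filter (fun q =>
        r.c q.1 + r'.c q.2 ≡ ν' [MOD 2 ^ r.len]) := by
  obtain ⟨ν', hν'⟩ := exists_modEq_shift (h [] + h' []) (ν / 2 ^ r.bot) (2 ^ r.len) (by positivity)
  refine ⟨ν', ?_⟩
  rintro ⟨z, z'⟩ hq
  rw [mem_Sol] at hq
  obtain ⟨⟨h1, h2⟩, h3⟩ := hq
  obtain ⟨a, rfl, haV⟩ := mem_Vs_single.mp h1
  obtain ⟨a', rfl, haV'⟩ := mem_Vs_single.mp h2
  refine ⟨a, a', rfl, ?_⟩
  rw [mem_filter, mem_product]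
  refine ⟨⟨haV, haV'⟩, ?_⟩
  have hl : r'.len = r.len := by unfold Rg.len; rw [hb, ht]
  have ht2 : r.top = r.bot + r.len := by unfold Rg.len; omega
  simp only [val_single] at h3
  rw [← hb, hl, ht2] at h3
  have h4 := modEq_sub_of_mul h3
  refine hν' _ ?_
  have h5 : r.c a + h [] + (r'.c a' + h' []) = h [] + h' [] + (r.c a + r'.c a') := by ring
  rw [h5] at h4
  exact h4

lemma NB_single {r r' : Rg} {B : ℕ} (hb : r.bot = r'.bot) (ht : r.top = r'.top)
    (hle : r.bot ≤ r.top) (h : PBr r r' B) : NB [r] [r'] r.top B := by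
  intro f f' ν
  obtain ⟨ν', hν'⟩ := single_sol hb ht hle f f' ν
  refine le_trans ?_ (h ν')
  refine card_le_card_of_surjOn (fun q => ([q.1], [q.2])) ?_
  intro q hq
  obtain ⟨a, a', rfl, h2⟩ := hν' q hq
  exact ⟨(a, a'), h2, rfl⟩

lemma NBw_single {LF : Set (Finset (ℕ × ℕ))} {r r' : Rg} {B : ℕ} (hb : r.bot = r'.bot)
    (ht : r.top = r'.top) (hle : r.bot ≤ r.top) (h : PBw LF r r' B) :
    NBw LF [r] [r'] r.top B := by
  classical
  intro f f' ν w D hw
  obtain ⟨ν', hν'⟩ := single_sol hb ht hle f f' ν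
  refine le_trans ?_ (h ν' w D hw)
  have hinj : Set.InjOn (fun q : ℕ × ℕ => (([q.1] : List ℕ), ([q.2] : List ℕ)))
      ((r.V ×ˢ r'.V).filter (fun q => r.c q.1 + r'.c q.2 ≡ ν' [MOD 2 ^ r.len])) := by
    intro q _ q' _ he
    simp only [Prod.mk.injEq, List.cons.injEq, and_true] at he
    exact Prod.ext he.1 he.2
  calc ∑ q ∈ Sol [r] [r'] f f' r.top ν, w (tau [r] q.1, tau [r'] q.2)
      ≤ ∑ q ∈ ((r.V ×ˢ r'.V).filter (fun q =>
          r.c q.1 + r'.c q.2 ≡ ν' [MOD 2 ^ r.len])).image (fun q => ([q.1], [q.2])),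
          w (tau [r] q.1, tau [r'] q.2) := by
        refine sum_le_sum_of_subset ?_
        intro q hq
        obtain ⟨a, a', rfl, h2⟩ := hν' q hq
        exact mem_image.mpr ⟨(a, a'), h2, rfl⟩
    _ = _ := by
        rw [sum_image hinj]
        refine sum_congr rfl (fun q _ => ?_)
        rw [tau_single, tau_single]

/-- the pair bounds of T* -/
lemma PBr_old {C : ETS.Codes} {r r' : ETS.Reg} {B : ℕ} (h : ETS.PB C r r' B) :
    PBr (rgOf C r) (rgOf C r') B := h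

/-! ### rest regions -/

/-- all regions of the list satisfy the pair bound with themselves, with constants `μ ^ k r` -/
def GoodRest (μ : ℕ) (k : Rg → ℕ) (A : List Rg) : Prop :=
  ∀ r ∈ A, r.bot ≤ r.top ∧ PBr r r (μ ^ k r)

lemma NB_rest {μ : ℕ} {k : Rg → ℕ} : ∀ {A : List Rg} {u v : ℕ}, Chain u A v →
    GoodRest μ k A → NB A A v (μ ^ (A.map k).sum)
  | [], u, v, _, _ => by simpa using NB_nil
  | r :: A, u, v, hc, hA => by
    obtain ⟨h1, h2, h3⟩ := hc
    have ih := NB_rest h3 (fun s hs => hA s (List.mem_cons_of_mem _ hs))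
    have h4 : NB [r] [r] r.top (μ ^ k r) :=
      NB_single rfl rfl (hA r List.mem_cons_self).1 (hA r List.mem_cons_self).2
    have h5 := NB.append h4 ih h3.le h3.above h3.above
    rw [List.map_cons, List.sum_cons, pow_add]
    exact h5

end Pool.Agent.E3
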