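import Mathlib
import Pool.Agent.Helper16.E3.Single

/-!
# E-T (MP_12a1af_nt), phase 3: the T-states of the layouts and the families of lists
-/

variable [Pool.Agent.Helper29.E3.EpFn]

open Finset

namespace Pool.Agent.E3

open Pool.Agent.ETS (Codes Reg pairs PB RSB)
open Pool.Agent.Helper29.ETK (CC)
open Pool.Agent.Helper29.E3 (ep Wd Hd Ld)

/-- the T-state of a layout: the level and the epoch of the random block -/
inductive TS
  | none
  | W (e : ℕ)
  | H (e : ℕ)
  deriving DecidableEq

/-- T-state of a region -/
def Reg2.ts : Reg2 → TS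
  | .old (.PT _ e _ _) => .W e
  | .old (.RT e _ _) => .W e
  | .T1 e _ => .H e
  | _ => .none

/-- T-state of a list of regions: that of the first region with a block -/
def tsL : List Reg2 → TS
  | [] => .none
  | r :: A => if r.ts = .none then tsL A else r.ts

/-- the family of the lists for two T-states; `QW e`, `QH e` the families of test sets -/
def LF (D : Codes2) (QW QH : ℕ → Set (Finset ℕ)) : TS → TS → Set (Finset (ℕ × ℕ))
  | .none, .none => fam0
  | .none, .W e => famR (D.T e) (QW e)
  | .none, .H e => famR (D.T1 e) (QH e)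
  | .W e, .none => famL (D.T e) (QW e)
  | .H e, .none => famL (D.T1 e) (QH e)
  | .W e, .W _ => famB (D.T e) (D.W e)
  | .H e, .H _ => famB (D.T1 e) (D.H e)
  | .W _, .H _ => fam0
  | .H _, .W _ => fam0

lemma tsL_append (A B : List Reg2) : tsL (A ++ B) = if tsL A = .none then tsL B else tsL A := by
  induction A with
  | nil => simp [tsL]
  | cons r A ih =>
    simp only [List.cons_append, tsL]
    split_ifs with h1 h2
    · rw [ih, if_pos h2]
    · rw [ih, if_neg h2]
    · rfl

/-- no region has a block -/
def NoTL (A : List Reg2) : Prop := ∀ r ∈ A, r.ts = .none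

lemma NoTL.tsL : ∀ {A : List Reg2}, NoTL A → tsL A = .none
  | [], _ => rfl
  | r :: A, h => by
    simp only [E3.tsL]
    rw [if_pos (h r List.mem_cons_self), NoTL.tsL (fun s hs => h s (List.mem_cons_of_mem _ hs))]

lemma NoTL.append {A B : List Reg2} (hA : NoTL A) (hB : NoTL B) : NoTL (A ++ B) := by
  intro r hr
  rcases List.mem_append.mp hr with hr | hr
  · exact hA r hr
  · exact hB r hr

lemma NoTL.noBlk {D : Codes2} {A : List Reg2} (h : NoTL A) : NoBlk (A.map (Reg2.rg D)) := by
  intro r hr z
  obtain ⟨s, hs, rfl⟩ := List.mem_map.mp hr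
  have := h s hs
  cases s with
  | old r =>
    cases r with
    | PT p e f b => simp [Reg2.ts] at this
    | RT e b v => simp [Reg2.ts] at this
    | P => rfl
    | R => rfl
    | RTh => rfl
    | win => rfl
    | winC => rfl
  | cell l s => rfl
  | mid e s => rfl
  | T1 e s => simp [Reg2.ts] at this
  | C1 e s => rfl
  | C2 e s => rfl
  | zone l s K => rfl

/-- the mid cells `[b + i H, b + (i+1) H)`, `i < n` -/
def mids (e H : ℕ) : ℕ → ℕ → List Reg2
  | 0, _ => []
  | n + 1, b => .mid e b :: mids e H n (b + H)

/-- the small cells `[s + i l, s + (i+1) l)`, `i < n` -/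
def cells (l : ℕ) : ℕ → ℕ → List Reg2
  | 0, _ => []
  | n + 1, s => .cell l s :: cells l n (s + l)

/-- the regions of the unit `b` in the stage `j` -/
def unitRegs (c b j : ℕ) : List Reg2 :=
  if j = 0 then mids (ep c b) (Hd c b) (Wd c b / Hd c b) b else
  if j = 1 then [.C2 (ep c b) b] else
  if j = 2 then [.old (.RT (ep c b) b (b + Wd c b))] else
  [.old (.RTh (ep c b) b (b + Wd c b))]

/-- the regions of the mid block `f` in the stage `j` -/
def blockRegs (c f j : ℕ) : List Reg2 :=
  if j = 0 then cells (Ld c f) (Hd c f / Ld c f) f else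
  if j = 1 then [.C1 (ep c f) f] else
  if j = 2 then [.T1 (ep c f) f] else
  [.mid (ep c f) f]

end Pool.Agent.E3
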