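import Mathlib
import Pool.Agent.Helper16.E3.Chunk
import Pool.Agent.Helper29.E3.Kinds

/-!
# E-T (MP_12a1af_nt), phase 3: the lists of regions of the schedule
-/

variable [Pool.Agent.Helper29.E3.EpFn]

open Finset

namespace Pool.Agent.E3

open Pool.Agent.ETS (Codes Reg IsRest runs IsRun IsCut runs_of_le runs_of_lt rend lt_rend rend_le
  rend_eq isRun_of_mem' runs_split' runs_const runs_congr')
open Pool.Agent.Helper29.ETK (Kid CC)
open Pool.Agent.Helper29.E3 (Kid2 kid kid2 kidU kidB ep Wd Hd Ld hh ll av wb zb un mb sb KidOK KCut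
  KidSize TopOK Rest2 rank2 fb epo)

variable {c t : ℕ}

/-! ### runs of `kid` -/

lemma run_P (H : KidOK c t) {w s e g : ℕ} (hw : w ≤ wb c t)
    (h : IsRun (kid c t) 0 w (.P g, s, e)) : s = g := by
  obtain ⟨-, h2, h3, h4, h5, -⟩ := h
  simp only at h2 h3 h4 h5
  obtain ⟨h6, h7⟩ := H.P s g (by omega) (h4 s le_rfl h2)
  rcases h5 with h5 | h5
  · omega
  · by_contra hne
    apply h5
    rcases Nat.eq_zero_or_pos s with h0 | h0
    · omega
    · exact h7 (s - 1) (by omega) (by omega)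

lemma run_PT (H : KidOK c t) {w s e g b : ℕ} (hw : w ≤ wb c t)
    (h : IsRun (kid c t) 0 w (.PT g b, s, e)) (hb : b + Wd c b ≤ w) :
    s = g ∧ e = b + Wd c b := by
  obtain ⟨-, h2, h3, h4, h5, h6⟩ := h
  simp only at h2 h3 h4 h5 h6
  obtain ⟨h7, h8, h9, h10, h11, h12, h13⟩ := H.PT s g b (by omega) (h4 s le_rfl h2)
  constructor
  · rcases h5 with h5 | h5
    · omega
    · by_contra hne
      apply h5
      rcases Nat.eq_zero_or_pos s with h0 | h0
      · omega
      · exact h12 (s - 1) (by omega) (by omega)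
  · apply le_antisymm
    · by_contra hne
      push Not at hne
      have h14 := h4 (b + Wd c b) (by omega) hne
      have := (H.PT (b + Wd c b) g b (by omega) h14).2.2.1
      omega
    · rcases h6 with h6 | h6
      · omega
      · by_contra hne
        push Not at hne
        exact h6 (h12 e (by omega) hne)

lemma run_R (H : KidOK c t) {w s e v : ℕ} (hw : w ≤ wb c t)
    (h : IsRun (kid c t) 0 w (.R v, s, e)) (hv : v ≤ w) : e = v := by
  obtain ⟨-, h2, h3, h4, h5, h6⟩ := h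
  simp only at h2 h3 h4 h5 h6
  obtain ⟨h7, h8, h9⟩ := H.R s v (by omega) (h4 s le_rfl h2)
  apply le_antisymm
  · by_contra hne
    push Not at hne
    have := (H.R v v (by omega) (h4 v (by omega) hne)).1
    omega
  · rcases h6 with h6 | h6
    · omega
    · by_contra hne
      push Not at hne
      exact h6 (h9 e (by omega) hne)

lemma run_RT (H : KidOK c t) {w s e v : ℕ} (hw : w ≤ wb c t)
    (h : IsRun (kid c t) 0 w (.RT v, s, e)) (hv : v ≤ w) : e = v := by
  obtain ⟨-, h2, h3, h4, h5, h6⟩ := h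
  simp only at h2 h3 h4 h5 h6
  obtain ⟨h7, h8, h9⟩ := H.RT s v (by omega) (h4 s le_rfl h2)
  apply le_antisymm
  · by_contra hne
    push Not at hne
    have := (H.RT v v (by omega) (h4 v (by omega) hne)).1
    omega
  · rcases h6 with h6 | h6
    · omega
    · by_contra hne
      push Not at hne
      exact h6 (h9 e (by omega) hne)

lemma run_RTh (H : KidOK c t) {w s e v : ℕ} (hw : w ≤ wb c t)
    (h : IsRun (kid c t) 0 w (.RTh v, s, e)) (hv : v ≤ w) : e = v := by
  obtain ⟨-, h2, h3, h4, h5, h6⟩ := h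
  simp only at h2 h3 h4 h5 h6
  obtain ⟨h7, h8, h9⟩ := H.RTh s v (by omega) (h4 s le_rfl h2)
  apply le_antisymm
  · by_contra hne
    push Not at hne
    have := (H.RTh v v (by omega) (h4 v (by omega) hne)).1
    omega
  · rcases h6 with h6 | h6
    · omega
    · by_contra hne
      push Not at hne
      exact h6 (h9 e (by omega) hne)

/-- `w` is a cut of `kid` -/
def GoodCut (c t w : ℕ) : Prop := w ≤ wb c t ∧ (w = wb c t ∨ w = 0 ∨ kid c t (w - 1) ≠ kid c t w)

lemma cut_R (H : KidOK c t) {w s v : ℕ} (hw : GoodCut c t w) (hs : s < w)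
    (h : kid c t s = .R v) : v ≤ w := by
  obtain ⟨hw1, hw2⟩ := hw
  obtain ⟨h7, h8, h9⟩ := H.R s v (by omega) h
  rcases hw2 with rfl | rfl | hw2
  · exact h8
  · omega
  · by_contra hne
    push Not at hne
    exact hw2 ((h9 (w - 1) (by omega) (by omega)).trans (h9 w (by omega) hne).symm)

lemma cut_RT (H : KidOK c t) {w s v : ℕ} (hw : GoodCut c t w) (hs : s < w)
    (h : kid c t s = .RT v) : v ≤ w := by
  obtain ⟨hw1, hw2⟩ := hw
  obtain ⟨h7, h8, h9⟩ := H.RT s v (by omega) h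
  rcases hw2 with rfl | rfl | hw2
  · exact h8
  · omega
  · by_contra hne
    push Not at hne
    exact hw2 ((h9 (w - 1) (by omega) (by omega)).trans (h9 w (by omega) hne).symm)

lemma cut_RTh (H : KidOK c t) {w s v : ℕ} (hw : GoodCut c t w) (hs : s < w)
    (h : kid c t s = .RTh v) : v ≤ w := by
  obtain ⟨hw1, hw2⟩ := hw
  obtain ⟨h7, h8, h9⟩ := H.RTh s v (by omega) h
  rcases hw2 with rfl | rfl | hw2
  · exact h8
  · omega
  · by_contra hne
    push Not at hne
    exact hw2 ((h9 (w - 1) (by omega) (by omega)).trans (h9 w (by omega) hne).symm)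

lemma cut_PT (H : KidOK c t) {w s g b : ℕ} (hw : GoodCut c t w) (hs : s < w)
    (h : kid c t s = .PT g b) : b + Wd c b ≤ w := by
  obtain ⟨hw1, hw2⟩ := hw
  obtain ⟨h7, h8, h9, h10, h11, h12, h13⟩ := H.PT s g b (by omega) h
  rcases hw2 with rfl | rfl | hw2
  · omega
  · omega
  · by_contra hne
    push Not at hne
    exact hw2 ((h12 (w - 1) (by omega) (by omega)).trans (h12 w (by omega) hne).symm)

/-! ### runs of `kid2` -/

lemma kid2_old {s : ℕ} (h : s < wb c t) : kid2 c t s = .old (kid c t s) := by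
  unfold Helper29.E3.kid2
  rw [if_pos h]

lemma of_kid2_old {s : ℕ} {k : Kid} (h : kid2 c t s = .old k) : s < wb c t ∧ kid c t s = k := by
  by_cases hs : s < wb c t
  · rw [kid2_old hs] at h
    exact ⟨hs, by injection h⟩
  · unfold Helper29.E3.kid2 at h
    rw [if_neg hs] at h
    unfold Helper29.E3.kidU Helper29.E3.kidB at h
    split_ifs at h

/-- a cut of `kid2` -/
def GoodCut2 (c t w : ℕ) : Prop :=
  w ≤ zb c t ∧ (w = zb c t ∨ w = 0 ∨ kid2 c t (w - 1) ≠ kid2 c t w)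

lemma GoodCut2.old {w : ℕ} (hw : GoodCut2 c t w) (hz : wb c t ≤ zb c t) :
    GoodCut c t (min w (wb c t)) := by
  refine ⟨min_le_right _ _, ?_⟩
  obtain ⟨h1, h2⟩ := hw
  rcases le_or_gt (wb c t) w with h | h
  · left
    exact min_eq_right h
  · rw [min_eq_left h.le]
    rcases h2 with h2 | h2 | h2
    · left; omega
    · right; left; exact h2
    · right; right
      rw [kid2_old h, kid2_old (by omega)] at h2
      exact fun h3 => h2 (by rw [h3])

lemma isRun_old {w s e : ℕ} {k : Kid} (h : IsRun (kid2 c t) 0 w (.old k, s, e)) :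
    e ≤ wb c t ∧ IsRun (kid c t) 0 (min w (wb c t)) (k, s, e) := by
  obtain ⟨h1, h2, h3, h4, h5, h6⟩ := h
  simp only at h1 h2 h3 h4 h5 h6
  have he : e ≤ wb c t := by
    have := (of_kid2_old (h4 (e - 1) (by omega) (by omega))).1
    omega
  refine ⟨he, h1, h2, le_min h3 he, fun x hx hx' => (of_kid2_old (h4 x hx hx')).2, ?_, ?_⟩
  · rcases h5 with h5 | h5
    · exact Or.inl h5
    · right
      simp only
      rw [kid2_old (by omega)] at h5
      exact fun h7 => h5 (by rw [h7])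
  · simp only
    rcases h6 with h6 | h6
    · left
      rw [min_eq_left (by omega)]
      exact h6
    · rcases Nat.eq_or_lt_of_le he with h7 | h7
      · left
        rw [min_eq_right (by omega)]
        exact h7
      · right
        rw [kid2_old h7] at h6
        exact fun h8 => h6 (by rw [h8])

/-- runs of a kind with a fixed place -/
lemma run_fix {φ : ℕ → Kid2} {w s e b l : ℕ} {k : Kid2} (hb : b ≤ s) (hl : s < b + l)
    (hk : ∀ x, b ≤ x → x < b + l → φ x = k) (hk' : ∀ x, s ≤ x → x < w → φ x = k → x < b + l)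
    (h : IsRun φ 0 w (k, s, e)) (hbw : b + l ≤ w) : s = b ∧ e = b + l := by
  obtain ⟨h1, h2, h3, h4, h5, h6⟩ := h
  simp only at h1 h2 h3 h4 h5 h6
  constructor
  · rcases h5 with h5 | h5
    · omega
    · by_contra hne
      exact h5 (hk (s - 1) (by omega) (by omega))
  · apply le_antisymm
    · by_contra hne
      push Not at hne
      have := hk' (b + l) (by omega) (by omega) (h4 (b + l) (by omega) hne)
      omega
    · rcases h6 with h6 | h6
      · omega
      · by_contra hne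
        push Not at hne
        exact h6 (hk e (by omega) hne)

lemma cut_fix {w s b l : ℕ} {k : Kid2} (hw : GoodCut2 c t w) (hb : b ≤ s) (hl : s < w)
    (hz : b + l ≤ zb c t) (hk : ∀ x, b ≤ x → x < b + l → kid2 c t x = k) : b + l ≤ w := by
  obtain ⟨h1, h2⟩ := hw
  rcases h2 with rfl | rfl | h2
  · exact hz
  · omega
  · by_contra hne
    push Not at hne
    exact h2 ((hk (w - 1) (by omega) (by omega)).trans (hk w (by omega) hne).symm)

lemma run_T2 (T : TopOK c t) {w s e b : ℕ} (hw : GoodCut2 c t w)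
    (h : IsRun (kid2 c t) 0 w (.T2 b, s, e)) :
    s = b ∧ e = b + Wd c b ∧ b = wb c t ∧ b + Wd c b ≤ w := by
  have h' := h
  obtain ⟨h1, h2, h3, h4, h5, h6⟩ := h'
  simp only at h1 h2 h3 h4 h5 h6
  have hwz := hw.1
  obtain ⟨f1, f2, f3, f4, f5, f6, f7, f8⟩ := T.T2 s b (by omega) (h4 s le_rfl h2)
  have hc := cut_fix hw f2 (by omega) f4 f8
  obtain ⟨g1, g2⟩ := run_fix f2 f3 f8 (fun x _ hx' hx => (T.T2 x b (by omega) hx).2.2.1) h hc
  exact ⟨g1, g2, f1, hc⟩

lemma run_C2 (T : TopOK c t) {w s e b : ℕ} (hw : GoodCut2 c t w)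
    (h : IsRun (kid2 c t) 0 w (.C2 b, s, e)) :
    s = b ∧ e = b + Wd c b ∧ b = wb c t ∧ b + Wd c b ≤ w := by
  have h' := h
  obtain ⟨h1, h2, h3, h4, h5, h6⟩ := h'
  simp only at h1 h2 h3 h4 h5 h6
  have hwz := hw.1
  obtain ⟨f1, f2, f3, f4, f5, f6, f7, f8⟩ := T.C2 s b (by omega) (h4 s le_rfl h2)
  have hc := cut_fix hw f2 (by omega) f4 f8
  obtain ⟨g1, g2⟩ := run_fix f2 f3 f8 (fun x _ hx' hx => (T.C2 x b (by omega) hx).2.2.1) h hc
  exact ⟨g1, g2, f1, hc⟩

lemma run_mid (T : TopOK c t) {w s e f : ℕ} (hw : GoodCut2 c t w)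
    (h : IsRun (kid2 c t) 0 w (.mid f, s, e)) :
    s = f ∧ e = f + Hd c f ∧ wb c t ≤ f ∧ f + Hd c f ≤ w := by
  have h' := h
  obtain ⟨h1, h2, h3, h4, h5, h6⟩ := h'
  simp only at h1 h2 h3 h4 h5 h6
  have hwz := hw.1
  obtain ⟨f1, f2, f3, f4, f5, f6, f7, f8⟩ := T.mid s f (by omega) (h4 s le_rfl h2)
  have hc := cut_fix hw f2 (by omega) f4 f8
  obtain ⟨g1, g2⟩ := run_fix f2 f3 f8 (fun x _ hx' hx => (T.mid x f (by omega) hx).2.2.1) h hc
  exact ⟨g1, g2, f1, hc⟩

lemma run_T1 (T : TopOK c t) {w s e f : ℕ} (hw : GoodCut2 c t w)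
    (h : IsRun (kid2 c t) 0 w (.T1 f, s, e)) :
    s = f ∧ e = f + Hd c f ∧ wb c t ≤ f ∧ f + Hd c f ≤ w := by
  have h' := h
  obtain ⟨h1, h2, h3, h4, h5, h6⟩ := h'
  simp only at h1 h2 h3 h4 h5 h6
  have hwz := hw.1
  obtain ⟨f0, f1, f2, f3, f4, f5, f6, f7, f8⟩ := T.T1 s f (by omega) (h4 s le_rfl h2)
  have hc := cut_fix hw f2 (by omega) f4 f8
  obtain ⟨g1, g2⟩ := run_fix f2 f3 f8 (fun x _ hx' hx => (T.T1 x f (by omega) hx).2.2.2.1) h hc
  exact ⟨g1, g2, f1, hc⟩

lemma run_C1 (T : TopOK c t) {w s e f : ℕ} (hw : GoodCut2 c t w)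
    (h : IsRun (kid2 c t) 0 w (.C1 f, s, e)) :
    s = f ∧ e = f + Hd c f ∧ wb c t ≤ f ∧ f + Hd c f ≤ w := by
  have h' := h
  obtain ⟨h1, h2, h3, h4, h5, h6⟩ := h'
  simp only at h1 h2 h3 h4 h5 h6
  have hwz := hw.1
  obtain ⟨f0, f1, f2, f3, f4, f5, f6, f7, f8⟩ := T.C1 s f (by omega) (h4 s le_rfl h2)
  have hc := cut_fix hw f2 (by omega) f4 f8
  obtain ⟨g1, g2⟩ := run_fix f2 f3 f8 (fun x _ hx' hx => (T.C1 x f (by omega) hx).2.2.2.1) h hc
  exact ⟨g1, g2, f1, hc⟩

lemma run_cell (T : TopOK c t) {w s e p : ℕ} (hw : GoodCut2 c t w)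
    (h : IsRun (kid2 c t) 0 w (.cell p, s, e)) :
    s = p ∧ e = p + Ld c p ∧ wb c t ≤ p ∧ p + Ld c p ≤ w := by
  have h' := h
  obtain ⟨h1, h2, h3, h4, h5, h6⟩ := h'
  simp only at h1 h2 h3 h4 h5 h6
  have hwz := hw.1
  obtain ⟨f0, f1, f2, f3, f4, f5, f6⟩ := T.cell s p (by omega) (h4 s le_rfl h2)
  have hc := cut_fix hw f2 (by omega) f4 f6
  obtain ⟨g1, g2⟩ := run_fix f2 f3 f6 (fun x _ hx' hx => (T.cell x p (by omega) hx).2.2.2.1) h hc
  exact ⟨g1, g2, f1, hc⟩

/-! ### chains -/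

section

variable {D : Codes2}

lemma chain_flatMap {α : Type*} [DecidableEq α] {φ : ℕ → α} {T : α × ℕ × ℕ → List Rg} :
    ∀ (n u w : ℕ), w - u ≤ n → u ≤ w →
    (∀ q ∈ runs φ w u, Chain q.2.1 (T q) q.2.2) → Chain u ((runs φ w u).flatMap T) w
  | 0, u, w, hn, hu, _ => by
    have : u = w := by omega
    subst this
    rw [runs_of_le φ le_rfl]
    rfl
  | n + 1, u, w, hn, hu, h => by
    rcases Nat.eq_or_lt_of_le hu with rfl | hlt
    · rw [runs_of_le φ le_rfl]
      rfl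
    · have h3 := lt_rend φ u w
      have h4 := rend_le φ hlt
      rw [runs_of_lt φ hlt] at h ⊢
      rw [List.flatMap_cons]
      refine Chain.append (v := rend φ u w) (h _ List.mem_cons_self) ?_
      exact chain_flatMap n _ w (by omega) h4 (fun q hq => h q (List.mem_cons_of_mem _ hq))

/-- the lengths of the codes -/
structure Len (c e1 : ℕ) (D : Codes2) : Prop where
  W : ∀ e, D.W e = CC c ^ e
  H : ∀ e, e1 ≤ e → D.H e = hh c e
  L : ∀ e, e1 ≤ e → D.L e = ll c e

lemma chain_toRegs (hW : ∀ e, D.W e = CC c ^ e) (H : KidOK c t) {w : ℕ} (hw : GoodCut c t w)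
    {q : Kid × ℕ × ℕ} (hr : IsRun (kid c t) 0 w q) :
    Chain q.2.1 ((toRegs c t q).map (rgOf D.toCodes)) q.2.2 := by
  obtain ⟨k, s, e⟩ := q
  have hr' := hr
  obtain ⟨-, h2, h3, h4, -, -⟩ := hr'
  simp only at h2 h3 h4
  have hwt := hw.1
  refine chain_old ?_
  cases k with
  | P g =>
    have := run_P H hwt hr
    subst this
    exact ⟨rfl, h2.le, rfl⟩
  | PT g b =>
    have h5 := cut_PT H hw (by omega) (h4 s le_rfl h2)
    obtain ⟨rfl, rfl⟩ := run_PT H hwt hr h5
    obtain ⟨h7, h8, h9, h10, h11, h12, h13⟩ := H.PT s s b (by omega) (h4 s le_rfl h2)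
    have hWb : D.W (ep c b) = Wd c b := hW _
    simp only [toRegs]
    split_ifs with h6
    · refine ⟨rfl, ?_, ?_, ?_, ?_⟩
      · simp only [Reg.bot, Reg.top]; omega
      · simp only [Reg.bot, Reg.top, hWb]
      · simp only [Reg.bot, Reg.top]; omega
      · simp only [Reg.top]
        rfl
    · refine ⟨rfl, ?_, ?_⟩
      · simp only [Reg.bot, Reg.top]; omega
      · simp only [Reg.top, hWb]
        rfl
  | R v =>
    have h5 := cut_R H hw (by omega) (h4 s le_rfl h2)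
    have := run_R H hwt hr h5
    subst this
    exact ⟨rfl, h2.le, rfl⟩
  | RT v =>
    have h5 := cut_RT H hw (by omega) (h4 s le_rfl h2)
    have := run_RT H hwt hr h5
    subst this
    exact ⟨rfl, h2.le, rfl⟩
  | RTh v =>
    have h5 := cut_RTh H hw (by omega) (h4 s le_rfl h2)
    have := run_RTh H hwt hr h5
    subst this
    exact ⟨rfl, h2.le, rfl⟩

lemma map_old (A : List Reg) : (A.map Reg2.old).map (Reg2.rg D) = A.map (rgOf D.toCodes) := by
  rw [List.map_map]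
  rfl

/-- the epoch of the regions of the top zone -/
lemma ep_top {e1 : ℕ} (T : TopOK c t) (he : e1 ≤ epo c t) {s : ℕ} (h1 : wb c t ≤ s)
    (h2 : s ≤ t) : e1 ≤ ep c s := he.trans (T.ep s h1 h2).1

lemma zb_le (T : TopOK c t) : zb c t ≤ t := by
  have h1 := T.zb1.1
  have h2 := T.wn1.1
  have h3 := T.sbt.1
  omega

theorem chain_toRegs2 {e1 : ℕ} (HL : Len c e1 D) (H : KidOK c t) (T : TopOK c t)
    (he : e1 ≤ epo c t) {w : ℕ} (hw : GoodCut2 c t w) {q : Kid2 × ℕ × ℕ}
    (hr : IsRun (kid2 c t) 0 w q) :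
    Chain q.2.1 ((toRegs2 c t q).map (Reg2.rg D)) q.2.2 := by
  obtain ⟨k, s, e⟩ := q
  have hz := zb_le T
  have hwz := hw.1
  cases k with
  | old k =>
    obtain ⟨h1, h2⟩ := isRun_old hr
    simp only [toRegs2]
    rw [map_old]
    exact chain_toRegs HL.W H (hw.old T.wbz) h2
  | T2 b =>
    obtain ⟨rfl, rfl, h1, h2⟩ := run_T2 T hw hr
    refine ⟨rfl, ?_, rfl⟩
    show s ≤ s + _
    omega
  | C2 b =>
    obtain ⟨rfl, rfl, h1, h2⟩ := run_C2 T hw hr
    refine ⟨rfl, ?_, ?_⟩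
    · show s ≤ s + _
      omega
    · show s + D.W (ep c s) = _
      rw [HL.W]
      rfl
  | mid f =>
    obtain ⟨rfl, rfl, h1, h2⟩ := run_mid T hw hr
    refine ⟨rfl, ?_, ?_⟩
    · show s ≤ s + _
      omega
    · show s + D.H (ep c s) = _
      rw [HL.H _ (ep_top T he h1 (by omega))]
      rfl
  | T1 f =>
    obtain ⟨rfl, rfl, h1, h2⟩ := run_T1 T hw hr
    refine ⟨rfl, ?_, ?_⟩
    · show s ≤ s + _
      omega
    · show s + D.H (ep c s) = _
      rw [HL.H _ (ep_top T he h1 (by omega))]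
      rfl
  | C1 f =>
    obtain ⟨rfl, rfl, h1, h2⟩ := run_C1 T hw hr
    refine ⟨rfl, ?_, ?_⟩
    · show s ≤ s + _
      omega
    · show s + D.H (ep c s) = _
      rw [HL.H _ (ep_top T he h1 (by omega))]
      rfl
  | cell p =>
    obtain ⟨rfl, rfl, h1, h2⟩ := run_cell T hw hr
    refine ⟨rfl, ?_, rfl⟩
    show s ≤ s + _
    omega

/-- the regions below `w` at the time `t` -/
noncomputable def bodyTo (c t u w : ℕ) : List Reg2 :=
  (runs (kid2 c t) w u).flatMap (toRegs2 c t)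

lemma body_eq : body c t = bodyTo c t 0 (zb c t) := rfl

lemma map_flatMap' {α β γ : Type*} (f : β → γ) (g : α → List β) (l : List α) :
    (l.flatMap g).map f = l.flatMap (fun a => (g a).map f) := by
  rw [List.map_flatMap]

/-- runs between two cuts are runs of the whole -/
lemma mem_runs_of_cuts {φ : ℕ → Kid2} {u m w : ℕ} (hum : u ≤ m) (hmw : m ≤ w)
    (h1 : IsCut φ 0 w u) (h2 : IsCut φ u w m) {q : Kid2 × ℕ × ℕ} (hq : q ∈ runs φ m u) :
    q ∈ runs φ w 0 := by
  rw [runs_split' φ (Nat.zero_le u) (hum.trans hmw) h1, runs_split' φ hum hmw h2]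
  simp [hq]

lemma chain_bodyTo {e1 : ℕ} (HL : Len c e1 D) (H : KidOK c t) (T : TopOK c t)
    (he : e1 ≤ epo c t) {u w : ℕ} (hu : u ≤ w) (hw : GoodCut2 c t w)
    (hc : IsCut (kid2 c t) 0 w u) :
    Chain u ((bodyTo c t u w).map (Reg2.rg D)) w := by
  unfold bodyTo
  rw [List.map_flatMap]
  refine chain_flatMap _ u w le_rfl hu (fun q hq => ?_)
  refine chain_toRegs2 HL H T he hw (isRun_of_mem' _ ?_)
  exact mem_runs_of_cuts hu le_rfl hc (Or.inr (Or.inl rfl)) hq

theorem chain_lay {e1 : ℕ} (HL : Len c e1 D) (H : KidOK c t) (T : TopOK c t)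
    (he : e1 ≤ epo c t) : Chain 0 (lay D c t) t := by
  unfold lay layL
  rw [List.map_append]
  refine Chain.append (chain_bodyTo HL H T he (Nat.zero_le _) ⟨le_rfl, Or.inl rfl⟩
    (Or.inl rfl)) ?_
  exact ⟨rfl, zb_le T, rfl⟩

end

end Pool.Agent.E3
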