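import Mathlib
import Pool.Agent.Helper16.E3.Body

/-!
# E-T (MP_12a1af_nt), phase 3: the near lemma below a cut
-/

variable [Pool.Agent.Helper29.E3.EpFn]

open Finset

namespace Pool.Agent.E3

open Pool.Agent.ETS (Codes Reg IsRest runs IsRun IsCut runs_of_le runs_of_lt rend lt_rend rend_le
  rend_eq isRun_of_mem' runs_split' runs_const runs_congr' PB Pl)
open Pool.Agent.Helper29.ETK (Kid CC)
open Pool.Agent.Helper29.E3 (Kid2 kid kid2 kidU kidB ep Wd Hd Ld hh ll av wb zb un mb sb KidOK KCut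
  KidSize TopOK Rest2 rank2 fb epo CellAt cellKid UnitAt BlockAt unitKid blockKid)

variable {c t : ℕ} {D : Codes2}

/-- exponent of the pair constant of a region -/
def kw (c : ℕ) : Reg2 → ℕ
  | .C1 e _ => hh c e / ll c e
  | .C2 e _ => CC c ^ e / hh c e
  | _ => 1

/-- sum of the exponents -/
def kws (c : ℕ) (A : List Reg2) : ℕ := (A.map (kw c)).sum

lemma kws_append (A B : List Reg2) : kws c (A ++ B) = kws c A + kws c B := by
  unfold kws
  rw [List.map_append, List.sum_append]

lemma kws_nil : kws c [] = 0 := rfl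

/-- all regions of the list satisfy the pair bound with themselves -/
def GoodRest2 (D : Codes2) (c μ : ℕ) (A : List Reg2) : Prop :=
  ∀ r ∈ A, (r.rg D).bot ≤ (r.rg D).top ∧ PBr (r.rg D) (r.rg D) (μ ^ kw c r)

lemma NB_rest2 {μ : ℕ} : ∀ {A : List Reg2} {u v : ℕ}, Chain u (A.map (Reg2.rg D)) v →
    GoodRest2 D c μ A → NB (A.map (Reg2.rg D)) (A.map (Reg2.rg D)) v (μ ^ kws c A)
  | [], u, v, _, _ => by simpa [kws] using NB_nil
  | r :: A, u, v, hc, hA => by
    obtain ⟨h1, h2, h3⟩ := hc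
    have ih := NB_rest2 h3 (fun s hs => hA s (List.mem_cons_of_mem _ hs))
    have h4 : NB [r.rg D] [r.rg D] (r.rg D).top (μ ^ kw c r) :=
      NB_single rfl rfl (hA r List.mem_cons_self).1 (hA r List.mem_cons_self).2
    have h5 := NB.append h4 ih h3.le h3.above h3.above
    have h6 : kws c (r :: A) = kw c r + kws c A := by
      unfold kws
      rw [List.map_cons, List.sum_cons]
    rw [h6, pow_add]
    exact h5

lemma e1_le {e1 s : ℕ} (h1 : CC c ^ (2 * e1 + 4) ≤ t) (h2 : t ≤ CC c ^ 4 * s) (hc : 1 ≤ c) :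
    e1 ≤ ep c s := by
  have hC : 2 ≤ CC c := by
    unfold CC
    calc 2 = 2 ^ 1 := rfl
      _ ≤ 2 ^ c := Nat.pow_le_pow_right (by norm_num) hc
  have h3 : CC c ^ (2 * e1) ≤ s := by
    have : CC c ^ 4 * CC c ^ (2 * e1) ≤ CC c ^ 4 * s := by
      rw [← pow_add]
      calc CC c ^ (4 + 2 * e1) = CC c ^ (2 * e1 + 4) := by ring_nf
        _ ≤ t := h1
        _ ≤ _ := h2
    exact Nat.le_of_mul_le_mul_left this (by positivity)
  have hs : s ≠ 0 := by
    have : 0 < CC c ^ (2 * e1) := by positivity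
    omega
  unfold ep Helper29.ETK.lg
  have h4 : 2 * e1 ≤ Nat.log (CC c) s := Nat.le_log_of_pow_le (by omega) h3
  exact Helper29.E3.le_epf_of h4

/-- what is assumed at one time -/
structure At (c e1 t : ℕ) : Prop where
  c1 : 1 ≤ c
  ok : KidOK c t
  size : KidSize c t
  top : TopOK c t
  big : CC c ^ (2 * e1 + 4) ≤ t
  epo : e1 ≤ epo c t

variable {e1 μ A : ℕ} {QW QH : ℕ → Set (Finset ℕ)}

lemma NearCodes2.len (HC : NearCodes2 c e1 D μ A QW QH) : Len c e1 D := ⟨HC.W, HC.H, HC.L⟩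

/-- the regions of the rest runs satisfy the bounds -/
lemma good_rest (HC : NearCodes2 c e1 D μ A QW QH) (Ht : At c e1 t) {w : ℕ}
    (hw : GoodCut2 c t w) {q : Kid2 × ℕ × ℕ} (hr : IsRun (kid2 c t) 0 w q) (hq : Rest2 q.1) :
    GoodRest2 D c μ (toRegs2 c t q) := by
  have hz := zb_le Ht.top
  have hwz := hw.1
  obtain ⟨k, s, e⟩ := q
  cases k with
  | old k =>
    obtain ⟨h1, h2⟩ := isRun_old hr
    have hw' := hw.old Ht.top.wbz
    have hr' := h2
    obtain ⟨-, h2', h3, h4, h5, -⟩ := hr'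
    simp only at h2' h3 h4 h5
    have hwt := hw'.1
    intro r hr2
    simp only [toRegs2, List.mem_map] at hr2
    obtain ⟨r, hr2, rfl⟩ := hr2
    cases k with
    | P g =>
      have := run_P Ht.ok hwt h2
      subst this
      simp only [toRegs, List.mem_singleton] at hr2
      subst hr2
      refine ⟨h2'.le, ?_⟩
      have := HC.PP (pidx c s) s e h2'
      exact (pow_one μ).symm ▸ PBr_old this
    | PT g b => exact absurd hq (by simp [Rest2, IsRest])
    | R v => exact absurd hq (by simp [Rest2, IsRest])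
    | RT v => exact absurd hq (by simp [Rest2, IsRest])
    | RTh v =>
      have h6 := cut_RTh Ht.ok hw' (by omega) (h4 s le_rfl h2')
      have := run_RTh Ht.ok hwt h2 h6
      subst this
      simp only [toRegs, List.mem_singleton] at hr2
      subst hr2
      have hk := h4 s le_rfl h2'
      have hcut : KCut c t s := by
        rcases h5 with h5 | h5
        · exact Or.inl h5
        · exact Or.inr (Or.inr (by rw [hk]; exact h5))
      have hs0 : 0 < s := by
        rcases Nat.eq_zero_or_pos s with h0 | h0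
        · rw [h0] at hk
          exact absurd hk (Ht.size.z e).1
        · exact h0
      obtain ⟨d1, d2⟩ := Ht.size.RTh e s (by omega) hk hcut
      have he : e1 ≤ ep c s := e1_le Ht.big (Ht.size.low s hs0 (by omega) hcut) Ht.c1
      have hWs : D.W (ep c s) = Wd c s := HC.W _
      have hd : D.W (ep c s) ∣ e - s := by rw [hWs]; exact Nat.dvd_sub d2 d1
      refine ⟨h2'.le, ?_⟩
      have hle := Nat.le_of_dvd (by omega) hd
      have := HC.ThTh (ep c s) s e he (by omega) hd
      exact (pow_one μ).symm ▸ PBr_old this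
  | T2 b => exact absurd hq (by simp [Rest2])
  | T1 f => exact absurd hq (by simp [Rest2])
  | C2 b =>
    obtain ⟨rfl, rfl, h1, h2⟩ := run_C2 Ht.top hw hr
    intro r hr2
    simp only [toRegs2, List.mem_singleton] at hr2
    subst hr2
    exact ⟨Nat.le_add_right _ _, HC.C2 _ _ (ep_top Ht.top Ht.epo (by omega) (by omega))⟩
  | mid f =>
    obtain ⟨rfl, rfl, h1, h2⟩ := run_mid Ht.top hw hr
    intro r hr2
    simp only [toRegs2, List.mem_singleton] at hr2
    subst hr2
    refine ⟨Nat.le_add_right _ _, ?_⟩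
    have := HC.mid (ep c s) s (ep_top Ht.top Ht.epo (by omega) (by omega))
    simpa [kw] using this
  | C1 f =>
    obtain ⟨rfl, rfl, h1, h2⟩ := run_C1 Ht.top hw hr
    intro r hr2
    simp only [toRegs2, List.mem_singleton] at hr2
    subst hr2
    exact ⟨Nat.le_add_right _ _, HC.C1 _ _ (ep_top Ht.top Ht.epo (by omega) (by omega))⟩
  | cell p =>
    obtain ⟨rfl, rfl, h1, h2⟩ := run_cell Ht.top hw hr
    intro r hr2
    simp only [toRegs2, List.mem_singleton] at hr2
    subst hr2
    refine ⟨Nat.le_add_right _ _, ?_⟩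
    have := HC.cell (ep c s) s (ep_top Ht.top Ht.epo (by omega) (by omega))
    simpa [kw, Helper29.E3.Ld] using this

/-- the regions of the rest runs have no blocks and do not depend on the time -/
lemma noT_rest {q : Kid2 × ℕ × ℕ} (hq : Rest2 q.1) : NoTL (toRegs2 c t q) := by
  obtain ⟨k, s, e⟩ := q
  cases k with
  | old k =>
    cases k with
    | P g =>
      intro r hr
      simp only [toRegs2, toRegs, List.map_cons, List.map_nil, List.mem_singleton] at hr
      subst hr; rfl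
    | PT g b => exact absurd hq (by simp [Rest2, IsRest])
    | R v => exact absurd hq (by simp [Rest2, IsRest])
    | RT v => exact absurd hq (by simp [Rest2, IsRest])
    | RTh v =>
      intro r hr
      simp only [toRegs2, toRegs, List.map_cons, List.map_nil, List.mem_singleton] at hr
      subst hr; rfl
  | T2 b => exact absurd hq (by simp [Rest2])
  | T1 f => exact absurd hq (by simp [Rest2])
  | C2 b =>
    intro r hr
    simp only [toRegs2, List.mem_singleton] at hr
    subst hr; rfl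
  | mid f =>
    intro r hr
    simp only [toRegs2, List.mem_singleton] at hr
    subst hr; rfl
  | C1 f =>
    intro r hr
    simp only [toRegs2, List.mem_singleton] at hr
    subst hr; rfl
  | cell p =>
    intro r hr
    simp only [toRegs2, List.mem_singleton] at hr
    subst hr; rfl

lemma toRegs2_rest {t' : ℕ} {q : Kid2 × ℕ × ℕ} (hq : Rest2 q.1) :
    toRegs2 c t q = toRegs2 c t' q := by
  obtain ⟨k, s, e⟩ := q
  cases k with
  | old k =>
    cases k with
    | P g => rfl
    | PT g b => exact absurd hq (by simp [Rest2, IsRest])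
    | R v => exact absurd hq (by simp [Rest2, IsRest])
    | RT v => exact absurd hq (by simp [Rest2, IsRest])
    | RTh v => rfl
  | _ => rfl

lemma rest_eq {K K' u m : ℕ}
    (h : ∀ s, u ≤ s → s < m → kid2 c K s = kid2 c K' s ∧ Rest2 (kid2 c K' s)) :
    bodyTo c K u m = bodyTo c K' u m := by
  unfold bodyTo
  rw [runs_congr' _ (fun s h1 h2 => (h s h1 h2).1)]
  apply List.flatMap_congr
  intro q hq
  obtain ⟨h1, h2, h3, h4, -⟩ := isRun_of_mem' _ hq
  refine toRegs2_rest ?_
  rw [← h4 q.2.1 le_rfl h2]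
  exact (h _ h1 (by omega)).2

lemma rest_noT {u m : ℕ} (h : ∀ s, u ≤ s → s < m → Rest2 (kid2 c t s)) :
    NoTL (bodyTo c t u m) := by
  intro r hr
  unfold bodyTo at hr
  rw [List.mem_flatMap] at hr
  obtain ⟨q, hq, hr⟩ := hr
  obtain ⟨h1, h2, h3, h4, -⟩ := isRun_of_mem' _ hq
  refine noT_rest (c := c) (t := t) (q := q) ?_ r hr
  rw [← h4 q.2.1 le_rfl h2]
  exact h _ h1 (by omega)

lemma rest_NB (HC : NearCodes2 c e1 D μ A QW QH) (Ht : At c e1 t) {u m w : ℕ}
    (hw : GoodCut2 c t w) (hum : u ≤ m) (hm : m ≤ w) (h1 : IsCut (kid2 c t) 0 w u)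
    (h2 : IsCut (kid2 c t) u w m) (h : ∀ s, u ≤ s → s < m → Rest2 (kid2 c t s)) :
    NB ((bodyTo c t u m).map (Reg2.rg D)) ((bodyTo c t u m).map (Reg2.rg D)) m
      (μ ^ kws c (bodyTo c t u m)) := by
  have hmem : ∀ q ∈ runs (kid2 c t) m u, q ∈ runs (kid2 c t) w 0 :=
    fun q hq => mem_runs_of_cuts hum hm h1 h2 hq
  refine NB_rest2 (u := u) ?_ ?_
  · unfold bodyTo
    rw [List.map_flatMap]
    refine chain_flatMap _ u m le_rfl hum (fun q hq => ?_)
    exact chain_toRegs2 HC.len Ht.ok Ht.top Ht.epo hw (isRun_of_mem' _ (hmem q hq))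
  · intro r hr
    unfold bodyTo at hr
    rw [List.mem_flatMap] at hr
    obtain ⟨q, hq, hqr⟩ := hr
    refine good_rest HC Ht hw (isRun_of_mem' _ (hmem q hq)) ?_ r hqr
    obtain ⟨h3, h4, h5, h6, -⟩ := isRun_of_mem' _ hq
    rw [← h6 q.2.1 le_rfl h4]
    exact h _ h3 (by omega)

/-! ### the chunk in action -/

/-- the part `[x0, x1)` in action, everything else below `w` at rest and equal -/
structure Act (c K K' w x0 x1 : ℕ) (X X' : List Reg2) : Prop where
  le1 : x0 ≤ x1
  le2 : x1 ≤ w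
  w1 : GoodCut2 c K w
  w2 : GoodCut2 c K' w
  c0 : IsCut (kid2 c K) 0 w x0
  c0' : IsCut (kid2 c K') 0 w x0
  c1 : IsCut (kid2 c K) x0 w x1
  c1' : IsCut (kid2 c K') x0 w x1
  X : bodyTo c K x0 x1 = X
  X' : bodyTo c K' x0 x1 = X'
  out : ∀ s, s < w → (s < x0 ∨ x1 ≤ s) → kid2 c K s = kid2 c K' s ∧ Rest2 (kid2 c K' s)

lemma cut_zero {φ : ℕ → Kid2} {x0 w x1 : ℕ} (h0 : IsCut φ 0 w x0) (h1 : IsCut φ x0 w x1) :
    IsCut φ 0 w x1 := by
  rcases h1 with h1 | h1 | h1
  · rw [h1]; exact h0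
  · exact Or.inr (Or.inl h1)
  · exact Or.inr (Or.inr h1)

lemma Act.split {K K' w x0 x1 : ℕ} {X X' : List Reg2} (h : Act c K K' w x0 x1 X X') :
    bodyTo c K 0 w = bodyTo c K' 0 x0 ++ (X ++ bodyTo c K' x1 w) ∧
    bodyTo c K' 0 w = bodyTo c K' 0 x0 ++ (X' ++ bodyTo c K' x1 w) := by
  have l1 := h.le1
  have l2 := h.le2
  have r1 := rest_eq (c := c) (K := K) (K' := K') (u := 0) (m := x0)
    (fun s _ h2 => h.out s (by omega) (Or.inl h2))
  have r2 := rest_eq (c := c) (K := K) (K' := K') (u := x1) (m := w)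
    (fun s h1 h2 => h.out s h2 (Or.inr h1))
  have hX := h.X
  have hX' := h.X'
  constructor
  · rw [← r1, ← r2, ← hX]
    unfold bodyTo
    rw [runs_split' _ (Nat.zero_le _) (l1.trans l2) h.c0, runs_split' _ l1 l2 h.c1,
      List.flatMap_append, List.flatMap_append]
  · rw [← hX']
    unfold bodyTo
    rw [runs_split' _ (Nat.zero_le _) (l1.trans l2) h.c0', runs_split' _ l1 l2 h.c1',
      List.flatMap_append, List.flatMap_append]

lemma Act.noT1 {K K' w x0 x1 : ℕ} {X X' : List Reg2} (h : Act c K K' w x0 x1 X X') :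
    NoTL (bodyTo c K' 0 x0) := by
  have l1 := h.le1
  have l2 := h.le2
  exact rest_noT (fun s _ h2 => (h.out s (by omega) (Or.inl h2)).2)

lemma Act.noT2 {K K' w x0 x1 : ℕ} {X X' : List Reg2} (h : Act c K K' w x0 x1 X X') :
    NoTL (bodyTo c K' x1 w) :=
  rest_noT (fun s h1 h2 => (h.out s h2 (Or.inr h1)).2)

lemma tsL_mid {A B X : List Reg2} (hA : NoTL A) (hB : NoTL B) : tsL (A ++ (X ++ B)) = tsL X := by
  rw [tsL_append, if_pos hA.tsL, tsL_append, hB.tsL]
  split_ifs with h
  · exact h.symm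
  · rfl

/-- **near bound below a cut** -/
theorem Act.NBw {K K' w x0 x1 : ℕ} {X X' : List Reg2} (HC : NearCodes2 c e1 D μ A QW QH)
    (HK : At c e1 K) (HK' : At c e1 K') (h : Act c K K' w x0 x1 X X') {B : ℕ}
    (hB : E3.NBw (LF D QW QH (tsL X) (tsL X')) (X.map (Reg2.rg D)) (X'.map (Reg2.rg D)) x1 B)
    {s s' : TS} (hs : s = tsL X) (hs' : s' = tsL X') :
    E3.NBw (LF D QW QH s s') ((bodyTo c K 0 w).map (Reg2.rg D))
      ((bodyTo c K' 0 w).map (Reg2.rg D)) w
      (μ ^ (kws c (bodyTo c K' 0 x0) + kws c (bodyTo c K' x1 w)) * B) := by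
  have l1 := h.le1
  have l2 := h.le2
  obtain ⟨s1, s2⟩ := h.split
  have n1 := rest_NB (u := 0) (m := x0) HC HK' h.w2 (Nat.zero_le _) (l1.trans l2) (Or.inl rfl) (by
    rcases h.c0' with h1 | h1 | h1
    · exact Or.inl h1
    · exact Or.inr (Or.inl h1)
    · exact Or.inr (Or.inr h1)) (fun s _ h2 => (h.out s (by omega) (Or.inl h2)).2)
  have n2 := rest_NB (u := x1) (m := w) HC HK' h.w2 l2 le_rfl (cut_zero h.c0' h.c1')
    (Or.inr (Or.inl rfl)) (fun s h1 h2 => (h.out s h2 (Or.inr h1)).2)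
  have hZ := (chain_bodyTo HC.len HK'.ok HK'.top HK'.epo l2 h.w2 (cut_zero h.c0' h.c1')).above
  have hXa : Above x0 (X.map (Reg2.rg D)) := by
    have h3 : Chain x0 ((bodyTo c K x0 x1).map (Reg2.rg D)) x1 := by
      unfold bodyTo
      rw [List.map_flatMap]
      refine chain_flatMap _ x0 x1 le_rfl l1 (fun q hq => ?_)
      exact chain_toRegs2 HC.len HK.ok HK.top HK.epo h.w1 (isRun_of_mem' _
        (mem_runs_of_cuts l1 l2 h.c0 h.c1 hq))
    rw [h.X] at h3
    exact h3.above
  have hXa' : Above x0 (X'.map (Reg2.rg D)) := by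
    have h3 : Chain x0 ((bodyTo c K' x0 x1).map (Reg2.rg D)) x1 := by
      unfold bodyTo
      rw [List.map_flatMap]
      refine chain_flatMap _ x0 x1 le_rfl l1 (fun q hq => ?_)
      exact chain_toRegs2 HC.len HK'.ok HK'.top HK'.epo h.w2 (isRun_of_mem' _
        (mem_runs_of_cuts l1 l2 h.c0' h.c1' hq))
    rw [h.X'] at h3
    exact h3.above
  rw [s1, s2, hs, hs']
  simp only [List.map_append]
  have n3 := NBw.append_right hB n2 h.noT2.noBlk h.noT2.noBlk l2 hZ hZ
  have n4 := NBw.append_left n1 n3 h.noT1.noBlk h.noT1.noBlk (l1.trans l2)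
    (hXa.append (hZ.mono l1)) (hXa'.append (hZ.mono l1))
  refine n4.mono (le_of_eq ?_)
  rw [pow_add]
  ring

end Pool.Agent.E3
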