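import Mathlib
import Pool.Agent.Helper16.E3.Near
import Pool.Agent.Helper29.E3.Sizes

/-!
# E-T (MP_12a1af_nt), phase 3: the chunks in action
-/

variable [Pool.Agent.Helper29.E3.EpFn]

open Finset

namespace Pool.Agent.E3

open Pool.Agent.ETS (Codes Reg IsRest runs IsRun IsCut runs_of_le runs_of_lt rend lt_rend rend_le
  rend_spec of_lt_rend rend_eq isRun_of_mem' runs_split' runs_const runs_congr' PB Pl)
open Pool.Agent.Helper29.ETK (Kid CC)
open Pool.Agent.Helper29.E3 (Kid2 kid kid2 kidU kidB ep Wd Hd Ld hh ll av wb zb un mb sb KidOK KCut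
  KidSize TopOK Rest2 rank2 fb epo CellAt cellKid UnitAt BlockAt unitKid blockKid NearRest NearCell
  NearUnit NearBlock OmAt NearK2)

variable {c t : ℕ} {D : Codes2}

/-! ### runs -/

lemma runs_map {α β : Type*} [DecidableEq α] [DecidableEq β] {φ : ℕ → α} {f : α → β}
    (hf : Function.Injective f) : ∀ (n u w : ℕ), w - u ≤ n →
    runs (fun s => f (φ s)) w u = (runs φ w u).map (fun q => (f q.1, q.2))
  | 0, u, w, hn => by rw [runs_of_le _ (by omega), runs_of_le _ (by omega)]; rfl
  | n + 1, u, w, hn => by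
    rcases lt_or_ge u w with hlt | hge
    · have e : rend (fun s => f (φ s)) u w = rend φ u w := by
        refine rend_eq _ (lt_rend φ u w) (rend_le φ hlt) ?_ ?_
        · intro t h1 h2
          rw [of_lt_rend φ h1 h2]
        · rcases rend_spec φ u w with h | h
          · left
            have := rend_le φ hlt
            omega
          · right
            exact fun h3 => h (hf h3)
      rw [runs_of_lt _ hlt, runs_of_lt φ hlt, e, List.map_cons]
      have h3 := lt_rend φ u w
      rw [runs_map hf n _ w (by omega)]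
    · rw [runs_of_le _ hge, runs_of_le _ hge]
      rfl

lemma bodyTo_old {u v : ℕ} (hv : v ≤ wb c t) :
    bodyTo c t u v = ((runs (kid c t) v u).flatMap (toRegs c t)).map Reg2.old := by
  unfold bodyTo
  have h1 : runs (kid2 c t) v u = runs (fun s => Kid2.old (kid c t s)) v u :=
    runs_congr' _ (fun s _ h2 => kid2_old (by omega))
  have hinj : Function.Injective Kid2.old := fun a b h => by injection h
  rw [h1, runs_map hinj _ u v le_rfl, List.flatMap_map, List.map_flatMap]
  rfl

lemma runs_two {φ : ℕ → Kid} {u m w : ℕ} {k k' : Kid} (hu : u < m) (hm : m < w) (hk : k ≠ k')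
    (h1 : ∀ s, u ≤ s → s < m → φ s = k) (h2 : ∀ s, m ≤ s → s < w → φ s = k') :
    runs φ w u = [(k, u, m), (k', m, w)] := by
  have hc : IsCut φ u w m := by
    refine Or.inr (Or.inr ⟨by omega, ?_⟩)
    rw [h1 (m - 1) (by omega) (by omega), h2 m le_rfl hm]
    exact hk
  rw [runs_split' φ hu.le hm.le hc, runs_const φ hu h1, runs_const φ hm h2]
  rfl

lemma Wd_pos (c b : ℕ) : 0 < Wd c b := by
  unfold Helper29.E3.Wd CC; positivity

lemma Hd_pos (c b : ℕ) : 0 < Hd c b := by
  unfold Helper29.E3.Hd Helper29.E3.hh; positivity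

lemma Ld_pos (c b : ℕ) : 0 < Ld c b := by
  unfold Helper29.E3.Ld Helper29.E3.ll; positivity

/-! ### the cell of T* -/

lemma CellAt.geo {g b v σ : ℕ} (h : CellAt c t g b v σ) : CellGeo c g b v :=
  ⟨h.hg, h.hb, h.db, h.dg, h.dv, h.db', h.dv', h.epg⟩

lemma cell_regs {g b v σ : ℕ} (h : CellAt c t g b v σ) (hσ : σ ≤ 4) :
    (runs (kid c t) v g).flatMap (toRegs c t) = cellRegs c g b v σ := by
  have hW := Wd_pos c b
  have hg := h.hg
  have hb := h.hb
  have hgb : g < b + Wd c b := by omega
  obtain rfl | rfl | rfl | rfl | rfl : σ = 0 ∨ σ = 1 ∨ σ = 2 ∨ σ = 3 ∨ σ = 4 := by omega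
  · -- state 0
    have hk := h.kid
    simp only [cellKid, if_true] at hk
    simp only [cellRegs, if_true, Pl]
    split_ifs with hgb'
    · rw [runs_two (k := .P g) (k' := .RTh v) hgb' (show b < v by omega) (by simp)
        (fun s h1 h2 => by rw [hk s h1 (by omega), if_pos h2])
        (fun s h1 h2 => by rw [hk s (by omega) h2, if_neg (by omega)])]
      rfl
    · have : b = g := by omega
      subst this
      rw [runs_const (a := .RTh v) _ (show b < v by omega)
        (fun s h1 h2 => by rw [hk s h1 h2, if_neg (by omega)])]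
      rfl
  · -- state 1
    have hk := h.kid
    simp only [cellKid, one_ne_zero, if_false, if_true] at hk
    simp only [cellRegs, one_ne_zero, if_false, if_true]
    have hav := h.av rfl
    rcases Nat.eq_or_lt_of_le hb with hb' | hb'
    · rw [runs_const (a := .PT g b) _ (show g < v by omega)
        (fun s h1 h2 => by rw [hk s h1 h2, if_pos (by omega)])]
      simp only [List.flatMap_cons, List.flatMap_nil, List.append_nil, toRegs]
      rw [if_pos (by omega), hb']
    · rw [runs_two (k := .PT g b) (k' := .R v) hgb hb' (by simp)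
        (fun s h1 h2 => by rw [hk s h1 (by omega), if_pos h2])
        (fun s h1 h2 => by rw [hk s (by omega) h2, if_neg (by omega)])]
      simp only [List.flatMap_cons, List.flatMap_nil, List.append_nil, toRegs]
      rw [if_neg (by omega)]
      rfl
  all_goals
    have hk := h.kid
    simp only [cellKid] at hk
    norm_num at hk
    simp only [cellRegs]
    norm_num
    rcases Nat.eq_or_lt_of_le hb with hb' | hb'
    · rw [runs_const (a := .P g) _ (show g < v by omega)
        (fun s h1 h2 => by rw [hk s h1 h2, if_pos (by omega)]), if_neg (by omega)]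
      simp only [List.flatMap_cons, List.flatMap_nil, List.append_nil, toRegs, hb']
    · rw [if_pos hb']
      first
      | rw [runs_two (k := .P g) (k' := .R v) hgb hb' (by simp)
          (fun s h1 h2 => by rw [hk s h1 (by omega), if_pos h2])
          (fun s h1 h2 => by rw [hk s (by omega) h2, if_neg (by omega)])]
        rfl
      | rw [runs_two (k := .P g) (k' := .RT v) hgb hb' (by simp)
          (fun s h1 h2 => by rw [hk s h1 (by omega), if_pos h2])
          (fun s h1 h2 => by rw [hk s (by omega) h2, if_neg (by omega)])]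
        rfl
      | rw [runs_two (k := .P g) (k' := .RTh v) hgb hb' (by simp)
          (fun s h1 h2 => by rw [hk s h1 (by omega), if_pos h2])
          (fun s h1 h2 => by rw [hk s (by omega) h2, if_neg (by omega)])]
        rfl

/-- a cut of `kid` is a cut of `kid2` -/
lemma cut2_of_cut {u w x : ℕ} (h0 : 0 < wb c t) (hz : wb c t ≤ w)
    (hx : x ≤ wb c t) (h : x = u ∨ x = wb c t ∨ (0 < x ∧ kid c t (x - 1) ≠ kid c t x)) :
    IsCut (kid2 c t) u w x := by
  have hwb : x = wb c t → IsCut (kid2 c t) u w x := by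
    intro h
    rcases Nat.eq_or_lt_of_le hz with h1 | h1
    · right; left
      omega
    · right; right
      refine ⟨by omega, ?_⟩
      rw [kid2_old (s := x - 1) (by omega)]
      intro h3
      have := (of_kid2_old h3.symm).1
      omega
  rcases h with h | h | ⟨h1, h⟩
  · exact Or.inl h
  · exact hwb h
  · rcases Nat.eq_or_lt_of_le hx with h2 | h2
    · exact hwb h2
    · right; right
      refine ⟨h1, ?_⟩
      rw [kid2_old (s := x - 1) (by omega), kid2_old h2]
      exact fun h3 => h (by injection h3)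

/-- the two times are cut at `w` -/
structure Lvl (c K K' w : ℕ) : Prop where
  w1 : GoodCut2 c K w
  w2 : GoodCut2 c K' w
  b1 : wb c K ≤ w
  b2 : wb c K' ≤ w

lemma IsCut_of {φ : ℕ → Kid2} {u w x : ℕ} (h0 : 0 < x) (h : φ (x - 1) ≠ φ x) :
    IsCut φ u w x := Or.inr (Or.inr ⟨h0, h⟩)

/-- everything at rest -/
lemma act_rest {K K' w : ℕ} (h : NearRest c K K') (hw : Lvl c K K' w) (hw' : w ≤ zb c K') :
    Act c K K' w 0 0 [] [] where
  le1 := le_rfl
  le2 := Nat.zero_le _
  w1 := hw.w1
  w2 := hw.w2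
  c0 := Or.inl rfl
  c0' := Or.inl rfl
  c1 := Or.inl rfl
  c1' := Or.inl rfl
  X := by unfold bodyTo; rw [runs_of_le _ le_rfl]; rfl
  X' := by unfold bodyTo; rw [runs_of_le _ le_rfl]; rfl
  out := fun s hs _ => h.kid s (by omega)

/-- a cell of T* in action -/
lemma act_cell {K K' w g b v σ σ' : ℕ} (HK : KidOK c K) (HK' : KidOK c K')
    (h : NearCell c K K' g b v σ σ') (hw : Lvl c K K' w) (hw' : w ≤ zb c K') :
    Act c K K' w g v ((cellRegs c g b v σ).map .old) ((cellRegs c g b v σ').map .old) := by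
  have hg := h.cell.hg
  have hb := h.cell.hb
  have hv := h.cell.hv
  have hv' := h.cell'.hv
  have h1 := hw.b1
  have h2 := hw.b2
  have hW := Wd_pos c b
  have hcg : ∀ {T τ : ℕ}, KidOK c T → CellAt c T g b v τ → wb c T ≤ w →
      IsCut (kid2 c T) 0 w g := by
    intro T τ hT hc hwT
    refine cut2_of_cut hT.wb0 hwT (by have := hc.hv; omega) ?_
    rcases hc.cutg with h3 | h3
    · exact Or.inl h3
    · rcases Nat.eq_zero_or_pos g with h4 | h4
      · exact Or.inl h4
      · exact Or.inr (Or.inr ⟨h4, h3⟩)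
  have hcv : ∀ {T τ : ℕ}, KidOK c T → CellAt c T g b v τ → wb c T ≤ w →
      IsCut (kid2 c T) g w v := by
    intro T τ hT hc hwT
    refine cut2_of_cut hT.wb0 hwT hc.hv ?_
    rcases hc.cutv with h3 | h3
    · exact Or.inr (Or.inl h3)
    · exact Or.inr (Or.inr ⟨by omega, h3⟩)
  exact
  { le1 := by omega
    le2 := by omega
    w1 := hw.w1
    w2 := hw.w2
    c0 := hcg HK h.cell h1
    c0' := hcg HK' h.cell' h2
    c1 := hcv HK h.cell h1
    c1' := hcv HK' h.cell' h2
    X := by rw [bodyTo_old hv, cell_regs h.cell h.hσ]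
    X' := by rw [bodyTo_old hv', cell_regs h.cell' h.hσ']
    out := fun s hs ho => h.kid s (by omega) ho }

/-! ### units and blocks -/

/-- the list of blocks of equal length -/
def blks (κ : ℕ → Kid2) (H : ℕ) : ℕ → ℕ → List (Kid2 × ℕ × ℕ)
  | 0, _ => []
  | n + 1, u => (κ u, u, u + H) :: blks κ H n (u + H)

/-- runs of a function with blocks of equal length -/
lemma runs_blocks {φ : ℕ → Kid2} {κ : ℕ → Kid2} {H : ℕ} (hH : 0 < H)
    (hκ : Function.Injective κ) : ∀ (n u : ℕ),
    (∀ i < n, ∀ s, u + i * H ≤ s → s < u + (i + 1) * H → φ s = κ (u + i * H)) →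
    runs φ (u + n * H) u = blks κ H n u
  | 0, u, _ => by
    rw [zero_mul, add_zero, runs_of_le φ le_rfl]
    rfl
  | n + 1, u, h => by
    have h0 : ∀ s, u ≤ s → s < u + H → φ s = κ u := by
      intro s h1 h2
      have := h 0 (by omega) s (by simpa using h1) (by simpa using h2)
      simpa using this
    have hlt : u < u + (n + 1) * H := by
      have : 0 < (n + 1) * H := by positivity
      omega
    have e1 : u + (n + 1) * H = u + H + n * H := by ring
    have e : rend φ u (u + (n + 1) * H) = u + H := by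
      refine rend_eq φ (by omega) (by rw [e1]; omega) ?_ ?_
      · intro s h1 h2
        rw [h0 s h1 h2, h0 u le_rfl (by omega)]
      · rcases Nat.eq_zero_or_pos n with hn | hn
        · left
          rw [hn]; ring
        · right
          have h3 := h 1 (by omega) (u + H) (by rw [one_mul]) (by
            have : (1 + 1) * H = H + H := by ring
            omega)
          rw [h3, h0 u le_rfl (by omega), one_mul]
          exact fun h4 => absurd (hκ h4) (by omega)
    rw [runs_of_lt φ hlt, e, h0 u le_rfl (by omega), e1, blks]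
    congr 1
    refine runs_blocks hH hκ n (u + H) ?_
    intro i hi s h1 h2
    have h3 := h (i + 1) (by omega) s (by
      have : u + (i + 1) * H = u + H + i * H := by ring
      omega) (by
      have : u + (i + 1 + 1) * H = u + H + (i + 1) * H := by ring
      omega)
    rw [h3]
    congr 1
    ring

lemma flat_mids {e H : ℕ} : ∀ (n u : ℕ), (∀ i < n, ep c (u + i * H) = e) →
    (blks Kid2.mid H n u).flatMap (toRegs2 c t) = mids e H n u
  | 0, _, _ => rfl
  | n + 1, u, h => by
    have h0 := h 0 (by omega)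
    rw [zero_mul, add_zero] at h0
    rw [blks, List.flatMap_cons, flat_mids (e := e) n (u + H) (fun i hi => by
      rw [show u + H + i * H = u + (i + 1) * H by ring]; exact h (i + 1) (by omega))]
    simp only [toRegs2, mids, h0, List.singleton_append]

lemma flat_cells {l : ℕ} : ∀ (n u : ℕ), (∀ i < n, Ld c (u + i * l) = l) →
    (blks Kid2.cell l n u).flatMap (toRegs2 c t) = cells l n u
  | 0, _, _ => rfl
  | n + 1, u, h => by
    have h0 := h 0 (by omega)
    rw [zero_mul, add_zero] at h0
    rw [blks, List.flatMap_cons, flat_cells n (u + l) (fun i hi => by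
      rw [show u + l + i * l = u + (i + 1) * l by ring]; exact h (i + 1) (by omega))]
    simp only [toRegs2, cells, h0, List.singleton_append]

/-- regions of a unit -/
lemma unit_regs {b j : ℕ} (hj : j ≤ 3) (hd : Hd c b ∣ Wd c b)
    (hm : ∀ i < Wd c b / Hd c b, ∀ s, b + i * Hd c b ≤ s → s < b + (i + 1) * Hd c b →
      mb c s = b + i * Hd c b)
    (he : ∀ i < Wd c b / Hd c b, ep c (b + i * Hd c b) = ep c b)
    (hk : ∀ s, b ≤ s → s < b + Wd c b → kid2 c t s = unitKid c b j s) :
    bodyTo c t b (b + Wd c b) = unitRegs c b j := by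
  have hW := Wd_pos c b
  obtain rfl | rfl | rfl | rfl : j = 0 ∨ j = 1 ∨ j = 2 ∨ j = 3 := by omega
  · unfold bodyTo unitRegs
    rw [if_pos rfl]
    have h1 : Wd c b / Hd c b * Hd c b = Wd c b := Nat.div_mul_cancel hd
    rw [← flat_mids (c := c) (t := t) _ _ he,
      ← runs_blocks (φ := kid2 c t) (Hd_pos c b) (fun x y h => by injection h)
        (Wd c b / Hd c b) b ?_, h1]
    intro i hi s h2 h3
    have h4 : (i + 1) * Hd c b ≤ Wd c b := by
      rw [← h1]; exact Nat.mul_le_mul_right _ hi
    rw [hk s (by omega) (by omega)]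
    unfold unitKid
    rw [if_pos rfl, hm i hi s h2 h3]
  · unfold bodyTo unitRegs
    rw [runs_const _ (show b < b + Wd c b by omega) (a := .C2 b) (fun s h1 h2 => by
      rw [hk s h1 h2]; rfl)]
    rfl
  · unfold bodyTo unitRegs
    rw [runs_const _ (show b < b + Wd c b by omega) (a := .T2 b) (fun s h1 h2 => by
      rw [hk s h1 h2]; rfl)]
    rfl
  · unfold bodyTo unitRegs
    rw [runs_const _ (show b < b + Wd c b by omega) (a := .old (.RTh (b + Wd c b)))
      (fun s h1 h2 => by rw [hk s h1 h2]; rfl)]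
    rfl

/-- regions of a mid block -/
lemma block_regs {f j : ℕ} (hj : j ≤ 3) (hd : Ld c f ∣ Hd c f)
    (hm : ∀ i < Hd c f / Ld c f, ∀ s, f + i * Ld c f ≤ s → s < f + (i + 1) * Ld c f →
      sb c s = f + i * Ld c f)
    (he : ∀ i < Hd c f / Ld c f, Ld c (f + i * Ld c f) = Ld c f)
    (hk : ∀ s, f ≤ s → s < f + Hd c f → kid2 c t s = blockKid c f j s) :
    bodyTo c t f (f + Hd c f) = blockRegs c f j := by
  have hW := Hd_pos c f
  obtain rfl | rfl | rfl | rfl : j = 0 ∨ j = 1 ∨ j = 2 ∨ j = 3 := by omega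
  · unfold bodyTo blockRegs
    rw [if_pos rfl]
    have h1 : Hd c f / Ld c f * Ld c f = Hd c f := Nat.div_mul_cancel hd
    rw [← flat_cells (c := c) (t := t) _ _ he,
      ← runs_blocks (φ := kid2 c t) (Ld_pos c f) (fun x y h => by injection h)
        (Hd c f / Ld c f) f ?_, h1]
    intro i hi s h2 h3
    have h4 : (i + 1) * Ld c f ≤ Hd c f := by
      rw [← h1]; exact Nat.mul_le_mul_right _ hi
    rw [hk s (by omega) (by omega)]
    unfold blockKid
    rw [if_pos rfl, hm i hi s h2 h3]
  · unfold bodyTo blockRegs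
    rw [runs_const _ (show f < f + Hd c f by omega) (a := .C1 f) (fun s h1 h2 => by
      rw [hk s h1 h2]; rfl)]
    rfl
  · unfold bodyTo blockRegs
    rw [runs_const _ (show f < f + Hd c f by omega) (a := .T1 f) (fun s h1 h2 => by
      rw [hk s h1 h2]; rfl)]
    rfl
  · unfold bodyTo blockRegs
    rw [runs_const _ (show f < f + Hd c f by omega) (a := .mid f)
      (fun s h1 h2 => by rw [hk s h1 h2]; rfl)]
    rfl

open Pool.Agent.Helper29.ETK (kk)
open Pool.Agent.Helper29.E3 (gridU gridH gridL hh_dvd_pow ll_dvd_hh)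

lemma ep_unit (hc : 10 ≤ c) {b s : ℕ} (he : 1 ≤ ep c b) (hb : un c b = b) (h1 : b ≤ s)
    (h2 : s < b + Wd c b) : ep c s = ep c b :=
  (gridU c hc).ep_of_mem hc he (Nat.zero_le _) hb h1 h2

lemma Hd_dvd_Wd (hc : 10 ≤ c) {b : ℕ} (hk : 4 * c ≤ kk (ep c b) + 10) : Hd c b ∣ Wd c b :=
  hh_dvd_pow hc hk

lemma Ld_dvd_Hd (hc : 10 ≤ c) {b : ℕ} (hk : 8 ≤ ep c b) : Ld c b ∣ Hd c b :=
  ll_dvd_hh hc hk

lemma mb_unit (hc : 10 ≤ c) {b : ℕ} (he : 8 ≤ ep c b) (hk : 4 * c ≤ kk (ep c b) + 10)
    (hb : un c b = b) {i s : ℕ} (hi : i < Wd c b / Hd c b) (h1 : b + i * Hd c b ≤ s)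
    (h2 : s < b + (i + 1) * Hd c b) : mb c s = b + i * Hd c b ∧ ep c (b + i * Hd c b) = ep c b := by
  have hd := Hd_dvd_Wd hc hk
  have h3 : (i + 1) * Hd c b ≤ Wd c b := by
    calc (i + 1) * Hd c b ≤ Wd c b / Hd c b * Hd c b := Nat.mul_le_mul_right _ hi
      _ = Wd c b := Nat.div_mul_cancel hd
  have h4 : i * Hd c b + Hd c b = (i + 1) * Hd c b := by ring
  have hH := Hd_pos c b
  have h5 : ep c (b + i * Hd c b) = ep c b :=
    ep_unit hc (by omega) hb (Nat.le_add_right _ _) (by omega)
  refine ⟨?_, h5⟩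
  have h6 : Wd c b ∣ b := by
    have := (gridU c hc).gs_eq_iff.mp hb
    exact this
  refine (gridH c hc).gs_of_mem hc (f := b + i * Hd c b) (by omega) (by omega) ?_ h1 ?_
  · rw [(gridH c hc).gs_eq_iff, h5]
    exact Dvd.dvd.add (hd.trans h6) (Dvd.intro_left _ rfl)
  · rw [h5]
    show s < b + i * Hd c b + Hd c b
    omega

lemma ep_block (hc : 10 ≤ c) {f s : ℕ} (he : 8 ≤ ep c f) (hf : mb c f = f) (h1 : f ≤ s)
    (h2 : s < f + Hd c f) : ep c s = ep c f :=
  (gridH c hc).ep_of_mem hc (by omega) he hf h1 h2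

lemma sb_block (hc : 10 ≤ c) {f : ℕ} (he : 8 ≤ ep c f)
    (hf : mb c f = f) {i s : ℕ} (hi : i < Hd c f / Ld c f) (h1 : f + i * Ld c f ≤ s)
    (h2 : s < f + (i + 1) * Ld c f) : sb c s = f + i * Ld c f ∧ ep c (f + i * Ld c f) = ep c f := by
  have hd := Ld_dvd_Hd hc he
  have h3 : (i + 1) * Ld c f ≤ Hd c f := by
    calc (i + 1) * Ld c f ≤ Hd c f / Ld c f * Ld c f := Nat.mul_le_mul_right _ hi
      _ = Hd c f := Nat.div_mul_cancel hd
  have h4 : i * Ld c f + Ld c f = (i + 1) * Ld c f := by ring
  have hH := Ld_pos c f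
  have h5 : ep c (f + i * Ld c f) = ep c f :=
    ep_block hc he hf (Nat.le_add_right _ _) (by omega)
  refine ⟨?_, h5⟩
  have h6 : Hd c f ∣ f := by
    have := (gridH c hc).gs_eq_iff.mp hf
    exact this
  refine (gridL c hc).gs_of_mem hc (f := f + i * Ld c f) (by omega) (by omega) ?_ h1 ?_
  · rw [(gridL c hc).gs_eq_iff, h5]
    exact Dvd.dvd.add (hd.trans h6) (Dvd.intro_left _ rfl)
  · rw [h5]
    show s < f + i * Ld c f + Ld c f
    omega

/-- **a unit in action** -/
lemma act_unit (hc : 10 ≤ c) {K K' w b j j' : ℕ} (h : NearUnit c K K' b j j')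
    (hw : Lvl c K K' w) (hw' : w ≤ zb c K') (hbw : b + Wd c b ≤ w) (he : 8 ≤ ep c b)
    (hk : 4 * c ≤ kk (ep c b) + 10) :
    Act c K K' w b (b + Wd c b) (unitRegs c b j) (unitRegs c b j') := by
  have hW := Wd_pos c b
  have hb := h.unit.ub
  have hm : ∀ i < Wd c b / Hd c b, ∀ s, b + i * Hd c b ≤ s → s < b + (i + 1) * Hd c b →
      mb c s = b + i * Hd c b := fun i hi s h1 h2 => (mb_unit hc he hk hb hi h1 h2).1
  have hH := Hd_pos c b
  have he' : ∀ i < Wd c b / Hd c b, ep c (b + i * Hd c b) = ep c b := fun i hi =>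
    (mb_unit hc he hk hb hi (s := b + i * Hd c b) le_rfl (by
      have : (i + 1) * Hd c b = i * Hd c b + Hd c b := by ring
      omega)).2
  have hj' : j' ≤ 3 := by
    have := h.adj
    have := h.hj
    omega
  exact
  { le1 := by omega
    le2 := hbw
    w1 := hw.w1
    w2 := hw.w2
    c0 := IsCut_of h.unit.pos h.unit.cutb
    c0' := IsCut_of h.unit.pos h.unit'.cutb
    c1 := IsCut_of (by omega) h.unit.cute
    c1' := IsCut_of (by omega) h.unit'.cute
    X := unit_regs h.hj (Hd_dvd_Wd hc hk) hm he' h.unit.kid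
    X' := unit_regs hj' (Hd_dvd_Wd hc hk) hm he' h.unit'.kid
    out := fun s hs ho => h.kid s (by omega) ho }

/-- **a mid block in action** -/
lemma act_block (hc : 10 ≤ c) {K K' w f j j' : ℕ} (h : NearBlock c K K' f j j')
    (hw : Lvl c K K' w) (hw' : w ≤ zb c K') (hbw : f + Hd c f ≤ w) (he : 8 ≤ ep c f) :
    Act c K K' w f (f + Hd c f) (blockRegs c f j) (blockRegs c f j') := by
  have hW := Hd_pos c f
  have hb := h.block.bf
  have hm : ∀ i < Hd c f / Ld c f, ∀ s, f + i * Ld c f ≤ s → s < f + (i + 1) * Ld c f →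
      sb c s = f + i * Ld c f := fun i hi s h1 h2 => (sb_block hc he hb hi h1 h2).1
  have hH := Ld_pos c f
  have he' : ∀ i < Hd c f / Ld c f, Ld c (f + i * Ld c f) = Ld c f := by
    intro i hi
    have := (sb_block hc he hb hi (s := f + i * Ld c f) le_rfl (by
      have : (i + 1) * Ld c f = i * Ld c f + Ld c f := by ring
      omega)).2
    exact congrArg (ll c) this
  have hj' : j' ≤ 3 := by
    have := h.adj
    have := h.hj
    omega
  exact
  { le1 := by omega
    le2 := hbw
    w1 := hw.w1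
    w2 := hw.w2
    c0 := IsCut_of h.block.pos h.block.cutf
    c0' := IsCut_of h.block.pos h.block'.cutf
    c1 := IsCut_of (by omega) h.block.cute
    c1' := IsCut_of (by omega) h.block'.cute
    X := block_regs h.hj (Ld_dvd_Hd hc he) hm he' h.block.kid
    X' := block_regs hj' (Ld_dvd_Hd hc he) hm he' h.block'.kid
    out := fun s hs ho => h.kid s (by omega) ho }

end Pool.Agent.E3
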