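import Mathlib
import Pool.Agent.Helper16.E3.Acts
import Pool.Agent.Helper16.E3.Glue
import Pool.Agent.Helper3.E3.LDefs

/-!
# E-T (MP_12a1af_nt), phase 3: Omega, the zone, the prescribed hash values
-/

variable [Pool.Agent.Helper29.E3.EpFn]

open Finset

namespace Pool.Agent.E3

open Pool.Agent.ETS (Codes Reg IsRest runs IsRun IsCut runs_of_le runs_of_lt rend lt_rend rend_le
  rend_spec of_lt_rend rend_eq isRun_of_mem' runs_split' runs_const runs_congr' PB Pl Hash)
open Pool.Agent.Helper29.ETK (Kid CC)
open Pool.Agent.Helper29.E3 (Kid2 kid kid2 kidU kidB ep Wd Hd Ld hh ll av wb zb un mb sb KidOK KCut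
  KidSize TopOK Rest2 rank2 fb epo CellAt cellKid UnitAt BlockAt unitKid blockKid NearRest NearCell
  NearUnit NearBlock OmAt NearK2 om gridL)

/-- index of Omega in the layout -/
noncomputable def idxOm (c K : ℕ) : ℕ := (bodyTo c K 0 (om c K)).length

/-- indices of the regions with prescribed hash values: Omega and the zone -/
noncomputable def nf (c K : ℕ) : Finset ℕ := {idxOm c K, (body c K).length}

/-- the prescribed hash values; the data of the scale `K` are `Δ K` -/
noncomputable def h0 (D : Codes2) (Δ : ℕ → Dt) (c K : ℕ) : Hash := fun key =>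
  if key.length = idxOm c K then
    (Δ K).H (tau ((bodyTo c K 0 (om c K)).map (Reg2.rg D)) key.reverse)
  else (Δ K).S (key.reverse.getD (idxOm c K) 0)

/-- the key of the region above `A`, from the bottom to the top: the last variable is replaced by
its core -/
def kz : List Rg → List ℕ → List ℕ
  | [], _ => []
  | _ :: _, [] => []
  | r :: [], z :: _ => [r.core z]
  | _ :: r' :: rs, z :: zs => z :: kz (r' :: rs) zs

lemma nexts_ne : ∀ {A : List Rg} {z : List ℕ} {h : Hash} {k : List ℕ}, k ≠ [] →
    z.length = A.length → nexts A h z k = h (k ++ z.reverse)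
  | [], z, h, k, _, hl => by
    have : z = [] := List.length_eq_zero_iff.mp (by simpa using hl)
    subst this
    simp [nexts]
  | r :: A, [], h, k, _, hl => by simp at hl
  | r :: A, x :: z, h, k, hk, hl => by
    have hl' : z.length = A.length := by simpa using hl
    simp only [nexts]
    rw [nexts_ne hk hl']
    unfold Rg.next
    rw [if_neg (by simp [hk])]
    simp

lemma length_kz : ∀ {A : List Rg} {z : List ℕ}, z.length = A.length → (kz A z).length = A.length
  | [], z, hl => rfl
  | r :: A, [], hl => by simp at hl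
  | [r], x :: z, hl => rfl
  | r :: s :: A, x :: z, hl => by
    have hl' : z.length = (s :: A).length := by simpa using hl
    simp only [kz, List.length_cons]
    rw [length_kz hl', List.length_cons]

/-- **the hash value of the region above `A` is the value at the key** -/
lemma nexts_key : ∀ {A : List Rg} {z : List ℕ} {h : Hash}, z.length = A.length →
    nexts A h z [] = h (kz A z).reverse
  | [], z, h, hl => by
    have : z = [] := List.length_eq_zero_iff.mp (by simpa using hl)
    subst this
    rfl
  | r :: A, [], h, hl => by simp at hl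
  | [r], x :: z, h, hl => by
    have : z = [] := List.length_eq_zero_iff.mp (by simpa using hl)
    subst this
    rfl
  | r :: s :: A, x :: z, h, hl => by
    have hl' : z.length = (s :: A).length := by simpa using hl
    have h1 : nexts (r :: s :: A) h (x :: z) [] = nexts (s :: A) (r.next h x) z [] := rfl
    rw [h1, nexts_key hl']
    have h2 : (kz (s :: A) z).reverse ≠ [] := by
      intro h3
      have h4 := length_kz (A := s :: A) (z := z) hl'
      rw [← List.length_reverse, h3] at h4
      simp at h4
    unfold Rg.next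
    rw [if_neg h2]
    simp [kz]

lemma kz_append : ∀ {A B : List Rg} {a b : List ℕ}, a.length = A.length → B ≠ [] →
    b.length = B.length → kz (A ++ B) (a ++ b) = a ++ kz B b
  | [], B, a, b, hl, _, _ => by
    have : a = [] := List.length_eq_zero_iff.mp (by simpa using hl)
    subst this
    rfl
  | r :: A, B, [], b, hl, _, _ => by simp at hl
  | r :: A, B, x :: a, b, hl, hB, hb => by
    have hl' : a.length = A.length := by simpa using hl
    obtain ⟨s, rest, hs⟩ : ∃ s rest, A ++ B = s :: rest := by
      cases A with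
      | nil =>
        cases B with
        | nil => exact absurd rfl hB
        | cons s rest => exact ⟨s, rest, rfl⟩
      | cons s rest => exact ⟨s, rest ++ B, rfl⟩
    rw [List.cons_append, List.cons_append, List.cons_append, hs, kz, ← hs,
      kz_append hl' hB hb]

/-- the block is determined by the key -/
lemma tau_kz : ∀ {A : List Rg} {z : List ℕ}, z.length = A.length →
    (∀ r, A.getLast? = some r → ∀ x, r.blk (r.core x) = r.blk x) → tau A (kz A z) = tau A z
  | [], z, hl, _ => rfl
  | r :: A, [], hl, _ => by simp at hl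
  | [r], x :: z, hl, h => by
    have : z = [] := List.length_eq_zero_iff.mp (by simpa using hl)
    subst this
    simp only [kz, tau]
    rw [h r (by simp)]
  | r :: s :: A, x :: z, hl, h => by
    have hl' : z.length = (s :: A).length := by simpa using hl
    have h1 := tau_kz (A := s :: A) hl' (fun q hq => h q (by
      rw [List.getLast?_cons_cons]; exact hq))
    simp only [kz]
    show r.blk x + tau (s :: A) (kz (s :: A) z) = r.blk x + tau (s :: A) z
    rw [h1]

section

variable {c t : ℕ} {D : Codes2}

lemma kid2_cell {s p : ℕ} (h : kid2 c t s = .cell p) : p = sb c s := by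
  unfold Helper29.E3.kid2 Helper29.E3.kidU Helper29.E3.kidB at h
  split_ifs at h
  injection h with h1
  exact h1.symm

lemma sb_le (c s : ℕ) : sb c s ≤ s := Nat.mul_div_le s _

/-- positions above a small cell are in small cells -/
lemma cell_above (T : TopOK c t) {o s : ℕ} (ho : kid2 c t o = .cell (sb c o)) (h1 : o ≤ s)
    (h2 : s < zb c t) : kid2 c t s = .cell (sb c s) := by
  have h3 := T.mono o s h1 h2
  rw [ho] at h3
  cases hk : kid2 c t s with
  | cell p => rw [kid2_cell hk]
  | old k => rw [hk] at h3; simp [rank2] at h3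
  | T2 b => rw [hk] at h3; simp [rank2] at h3
  | C2 b => rw [hk] at h3; simp [rank2] at h3
  | mid f => rw [hk] at h3; simp [rank2] at h3
  | T1 f => rw [hk] at h3; simp [rank2] at h3
  | C1 f => rw [hk] at h3; simp [rank2] at h3

/-- grid points in the region of small cells are cuts -/
lemma goodCut_cell (T : TopOK c t) {o s : ℕ} (ho : kid2 c t o = .cell (sb c o)) (h1 : o < s)
    (h2 : s ≤ zb c t) (hs : sb c s = s) : GoodCut2 c t s := by
  refine ⟨h2, ?_⟩
  rcases Nat.eq_or_lt_of_le h2 with h3 | h3
  · exact Or.inl h3
  · right; right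
    rw [cell_above T ho h1.le h3, cell_above T ho (by omega) (by omega), hs]
    intro h4
    injection h4 with h5
    have := sb_le c (s - 1)
    omega

lemma om_self {o : ℕ} (h : OmAt c t o) : kid2 c t o = .cell (sb c o) := by
  have := Ld_pos c o
  rw [h.kid o le_rfl (by omega), h.so]

/-- Omega is a cut -/
lemma goodCut_om (T : TopOK c t) {o : ℕ} (h : OmAt c t o) : GoodCut2 c t o := by
  have hL := Ld_pos c o
  have htop := h.top
  refine ⟨by omega, ?_⟩
  rcases Nat.eq_zero_or_pos o with h0 | h0
  · exact Or.inr (Or.inl h0)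
  · right; right
    rw [(om_self h), h.so]
    intro h4
    have h5 := kid2_cell h4
    have := sb_le c (o - 1)
    omega

/-- the end of Omega is on the grid -/
lemma om_next (hc : 10 ≤ c) {o : ℕ} (h : OmAt c t o) (he : 8 ≤ ep c o) :
    sb c (o + Ld c o) = o + Ld c o :=
  (gridL c hc).gs_next hc he h.so

lemma goodCut_om' (hc : 10 ≤ c) (T : TopOK c t) {o : ℕ} (h : OmAt c t o) (he : 8 ≤ ep c o) :
    GoodCut2 c t (o + Ld c o) := by
  have hL := Ld_pos c o
  have htop := h.top
  exact goodCut_cell T (om_self h) (by omega) (by omega) (om_next hc h he)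

lemma bodyTo_append {u m w : ℕ} (h1 : u ≤ m) (h2 : m ≤ w) (hc : IsCut (kid2 c t) u w m) :
    bodyTo c t u w = bodyTo c t u m ++ bodyTo c t m w := by
  unfold bodyTo
  rw [runs_split' _ h1 h2 hc, List.flatMap_append]

lemma GoodCut2.isCut {u w m : ℕ} (h : GoodCut2 c t m) (hw : m ≤ w) (hw' : w ≤ zb c t) :
    IsCut (kid2 c t) u w m ∨ m = 0 := by
  rcases h.2 with h1 | h1 | h1
  · left; right; left; omega
  · exact Or.inr h1
  · rcases Nat.eq_zero_or_pos m with h0 | h0
    · exact Or.inr h0
    · exact Or.inl (Or.inr (Or.inr ⟨h0, h1⟩))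

lemma GoodCut2.isCut' {u w m : ℕ} (h : GoodCut2 c t m) (hu : u ≤ m) (hw : m ≤ w)
    (hw' : w ≤ zb c t) : IsCut (kid2 c t) u w m := by
  rcases h.isCut (u := u) hw hw' with h1 | h1
  · exact h1
  · exact Or.inl (by omega)

/-- the cell Omega -/
lemma bodyTo_om {o : ℕ} (h : OmAt c t o) :
    bodyTo c t o (o + Ld c o) = [.cell (Ld c o) o] := by
  have hL := Ld_pos c o
  unfold bodyTo
  rw [runs_const _ (show o < o + Ld c o by omega) (a := .cell o) h.kid]
  rfl

/-- **the layout around Omega** -/
lemma body_om (hc : 10 ≤ c) (T : TopOK c t) {o : ℕ} (h : OmAt c t o) (he : 8 ≤ ep c o) {w : ℕ}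
    (hw : o + Ld c o ≤ w) (hw' : w ≤ zb c t) :
    bodyTo c t 0 w = bodyTo c t 0 o ++ ([.cell (Ld c o) o] ++ bodyTo c t (o + Ld c o) w) := by
  have hL := Ld_pos c o
  rw [bodyTo_append (Nat.zero_le o) (show o ≤ w by omega)
    ((goodCut_om T h).isCut' (Nat.zero_le _) (by omega) hw'),
    bodyTo_append (u := o) (m := o + Ld c o) (w := w) (by omega) hw
      ((goodCut_om' hc T h he).isCut' (by omega) hw hw'), bodyTo_om h]

lemma getLast?_flatMap {α β : Type*} (f : α → List β) : ∀ (l : List α) (x : β),
    (l.flatMap f).getLast? = some x → ∃ a ∈ l, (f a).getLast? = some x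
  | [], x, h => by simp at h
  | a :: l, x, h => by
    rw [List.flatMap_cons] at h
    rcases List.eq_nil_or_concat (l.flatMap f) with h1 | ⟨l', y, h1⟩
    · rw [h1, List.append_nil] at h
      exact ⟨a, List.mem_cons_self, h⟩
    · rw [List.getLast?_append_of_ne_nil _ (by rw [h1]; simp)] at h
      obtain ⟨b, hb, hb'⟩ := getLast?_flatMap f l x h
      exact ⟨b, List.mem_cons_of_mem _ hb, hb'⟩

end

end Pool.Agent.E3
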