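import Mathlib
import Pool.Agent.Helper16.E3.Codes
import Pool.Agent.Helper86.ET.Q11
import Pool.Agent.Helper41.ETPN

/-!
# E-T (MP_12a1af_nt), phase 3: one-sided lists for the kinds of T*
-/

variable [Pool.Agent.Helper29.E3.EpFn]

open Finset

namespace Pool.Agent.E3

open Pool.Agent.ETS (Codes Reg pairs PB RSB)
open Pool.Agent.ETS.RC (RBase Mult)
open Pool.Agent.Helper83.E3 (neg)

variable {C : Codes} {e : ℕ} {Q : Set (Finset ℕ)}

lemma RBase_setT (hC : RBase C e) {T' : Finset ℕ} (hT' : T' ⊆ C.T e) :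
    RBase (setT C e T') e where
  hY := hC.hY
  hE := hC.hE
  hW := hC.hW
  hW8 := hC.hW8
  hT := by
    rw [setT_T_same]
    exact fun t ht => hC.hT t (hT' ht)
  hTh := hC.hTh
  cT := by
    rw [setT_T_same]
    exact (card_le_card hT').trans hC.cT
  cTh := hC.cTh

theorem oneSided_of (hC : RBase C e) (cov : ∀ t ∈ C.T e, ∃ q ∈ Q, t ∈ q)
    (hQs : ∀ j k, j < 2 ^ (4 * (C.W e / 2)) → k < 2 ^ (4 * (C.W e / 2)) →
      ETS.RC.Qs (C.W e / 2) j k ∈ Q)
    (hQR : ∀ ν, ν < 2 ^ C.W e → ETS.SH.QR (C.W e) (C.W e / 2) ν ∈ Q)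
    (hTh : ∀ ν, ν < 2 ^ C.W e → neg (C.W e) (C.Th e) ν ∈ Q) :
    OneSided C e 153738 Q := by
  have hmult : ∀ T' ⊆ C.T e, ∀ m, (∀ q ∈ Q, (T' ∩ q).card ≤ m) →
      Mult (C.W e) m T' (C.Th e) := by
    intro T' hT' m hm
    exact Helper83.E3.Mult.of_neg (fun t ht => hC.hT t (hT' ht)) hC.hTh
      (fun ν hν => hm _ (hTh ν hν))
  refine ⟨cov, ?_, ?_, ?_⟩
  · intro T' hT' m _ hm b v hbv hd
    have hW8 := hC.hW8
    refine ETS.RC.PB_R_RT (RBase_setT hC hT') (by omega) hd ?_ ?_
    · intro j k hj hk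
      rw [setT_T_same]
      exact hm _ (hQs j k hj hk)
    · intro ν hν
      rw [setT_T_same]
      exact hm _ (hQR ν hν)
  · intro T' hT' m _ hm b v hbv hd
    have hW8 := hC.hW8
    refine (ETS.RC.PB_RT_RTh (m := m) (RBase_setT hC hT') (by omega) hd ?_).mono
      (Nat.mul_le_mul_right _ (by norm_num))
    rw [setT_T_same]
    exact hmult T' hT' m hm
  · intro T' hT' m _ hm l hl hd
    have h1 := ETS.RC.RSB_holds (m := m) (RBase_setT hC hT') hl hd (by
      rw [setT_T_same]
      exact hmult T' hT' m hm)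
    intro κ κ₂ ν
    exact (h1 κ κ₂ ν).trans (Nat.mul_le_mul_right _ (by norm_num))

open Pool.Agent.Helper41.ETPP Pool.Agent.Helper83.ET in
/-- `PT` against `P` -/
theorem oneSidedP_of {c : Code} {B p f b : ℕ} (hX : ∀ l, C.X p l = c.X l)
    (hP : ∀ l x, C.P p l x = c.P l x) (hfb : f ≤ b) (h : PTok C c B e (b - f))
    (hF3 : ∀ ν s, s % 2 = 1 → ∃ q ∈ Q, ∀ t ∈ C.T e,
      (∃ j < 2 ^ (C.W e / 2 + 2), (ν + s * j) % 2 ^ C.W e = t) → t ∈ q)
    (hf4 : b - f = 0 → ∀ ν, ∃ q ∈ Q, ∀ t ∈ C.T e,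
      (∃ x ∈ c.X (C.W e), (c.P (C.W e) x + t) % 2 ^ C.W e = ν) → t ∈ q) :
    OneSidedP C e 4 Q p f b := by
  classical
  intro T' hT' m hm1 hm
  have h' : PTok (setT C e T') c B e (b - f) :=
    { four_le := h.four_le
      even := h.even
      lt := by rw [setT_T_same]; exact fun t ht => h.lt t (hT' ht)
      card := by rw [setT_T_same]; exact (card_le_card hT').trans h.card
      f3 := by
        rw [setT_T_same]
        exact fun ν s hs => (card_le_card (filter_subset_filter _ hT')).trans (h.f3 ν s hs)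
      f4 := by
        rw [setT_T_same]
        exact fun h0 ν => (card_le_card (filter_subset_filter _ hT')).trans (h.f4 h0 ν)
      sum := by
        rw [setT_T_same]
        exact fun s => (card_le_card (filter_subset_filter _
          (product_subset_product hT' hT'))).trans (h.sum s)
      pos := h.pos }
  have hm' : PTok (setT C e T') c (max B m) e (b - f) :=
    { four_le := h'.four_le
      even := h'.even
      lt := h'.lt
      card := h'.card
      f3 := fun ν s hs => (h'.f3 ν s hs).trans (le_max_left _ _)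
      f4 := fun h0 ν => (h'.f4 h0 ν).trans (le_max_left _ _)
      sum := fun s => (h'.sum s).trans (le_max_left _ _)
      pos := h'.pos }
  have hfm : F3 (C.W e) T' m := by
    intro ν s hs
    obtain ⟨q, hq, h1⟩ := hF3 ν s hs
    refine (card_le_card ?_).trans (hm q hq)
    intro t ht
    rw [mem_filter] at ht
    exact mem_inter.mpr ⟨ht.1, h1 t (hT' ht.1) ht.2⟩
  have hr : IsPr (setT C e T') c (max B m) p f (Reg.PT p e f b) := ⟨rfl, rfl, hfb, hm'⟩
  have hr' : IsPr (setT C e T') c (max B m) p f (Reg.P p f (b + C.W e)) :=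
    ⟨rfl, rfl, by omega⟩
  refine PB_of_sol (C := setT C e T') hX hP hr hr' rfl ?_
  intro s
  have hW := h.four_le
  have e1 : b + C.W e - f = (b - f) + C.W e := by omega
  have h2 : ∀ s, (trip c (b - f) (C.W e) (b - f + C.W e) T' s).card ≤
      4 * m * 2 ^ ((b - f + C.W e - (b - f) - C.W e + 1) / 2) := by
    intro s
    rcases Nat.eq_zero_or_pos (b - f) with hz | hz
    · rw [hz]
      refine block_zero c (by rw [← setT_T_same (C := C) (e := e) (T' := T')]; exact h'.card)
        (by omega) h.even hm1 (by left; omega) (by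
          intro ν
          obtain ⟨q, hq, h1⟩ := hf4 hz ν
          refine (card_le_card ?_).trans (hm q hq)
          intro t ht
          rw [mem_filter] at ht
          exact mem_inter.mpr ⟨ht.1, h1 t (hT' ht.1) ht.2⟩) s
    · exact block_count c (fun t ht => h.lt t (hT' ht)) h.four_le h.even (h.pos hz).1
        (h.pos hz).2 le_rfl hfm s
  have h3 := sol_lt c (l := b - f) (w := C.W e) (l' := (b - f) + C.W e) (w' := 0) (B := m)
    (T := T') (T' := {0}) (le_refl _) rfl (by simp) h2 s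
  have h4 : ((b - f) + C.W e + 0 - ((b - f) + C.W e) + 1) / 2 = 0 := by omega
  rw [h4, pow_zero, mul_one] at h3
  simpa [dl, dw, dT, e1, setT_W] using h3

end Pool.Agent.E3
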