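import Mathlib
import Pool.Agent.Helper16.E3.One

/-!
# E-T (MP_12a1af_nt), phase 3: two-sided lists for the kinds of T*
-/

variable [Pool.Agent.Helper29.E3.EpFn]

open Finset

namespace Pool.Agent.E3

open Pool.Agent.ETS (Codes Reg pairs mem_pairs PB RSB)
open Pool.Agent.ETS.RC (RBase Mult RKind)

/-- few classes, in every class the blocks have a fixed sum -/
lemma sum_fib_le {α : Type*} [DecidableEq α] (S : Finset α) (g t : α → ℕ × ℕ) {N n D : ℕ}
    {T : Finset ℕ} {w : ℕ × ℕ → ℕ} (hN : (S.image g).card ≤ N) (hw : WtLe (famB T n) w D)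
    (hT : ∀ s ∈ S, (t s).1 ∈ T ∧ (t s).2 ∈ T)
    (hinj : ∀ s ∈ S, ∀ r ∈ S, g s = g r → t s = t r → s = r)
    (hc : ∀ s ∈ S, ∀ r ∈ S, g s = g r → (t s).1 + (t s).2 ≡ (t r).1 + (t r).2 [MOD 2 ^ n]) :
    ∑ s ∈ S, w (t s) ≤ N * D := by
  rw [← sum_fiberwise_of_maps_to (g := g) (t := S.image g)
    (fun s hs => mem_image_of_mem _ hs)]
  calc ∑ p ∈ S.image g, ∑ s ∈ S.filter (fun s => g s = p), w (t s)
      ≤ ∑ p ∈ S.image g, D := by
        refine sum_le_sum (fun p hp => ?_)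
        obtain ⟨r, hr, hrp⟩ := mem_image.mp hp
        have hinj' : Set.InjOn t (S.filter (fun s => g s = p)) := by
          intro s hs s' hs' h
          rw [mem_coe, mem_filter] at hs hs'
          exact hinj s hs.1 s' hs'.1 (hs.2.trans hs'.2.symm) h
        rw [← sum_image (f := w) hinj']
        refine le_trans (sum_le_sum_of_subset ?_) (hw _ ⟨(t r).1 + (t r).2, rfl⟩)
        intro x hx
        obtain ⟨s, hs, rfl⟩ := mem_image.mp hx
        rw [mem_filter] at hs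
        rw [mem_filter, mem_product]
        exact ⟨hT s hs.1, hc s hs.1 r hr (hs.2.trans hrp.symm)⟩
    _ = (S.image g).card * D := by rw [sum_const, smul_eq_mul]
    _ ≤ N * D := Nat.mul_le_mul_right _ hN

variable {C : Codes} {e : ℕ}

/-- few pairs `(y, y')` -/
lemma card_yy_le (hC : RBase C e) {l ν : ℕ} (hl : l = C.W e ∨ C.W e + 4 ≤ l) (hd : C.W e ∣ l) :
    (((pairs (C.Y (l - C.W e)) (C.T e) ×ˢ pairs (C.Y (l - C.W e)) (C.T e)).filter (fun q =>
      C.E l (Nat.unpair q.1).1 + (Nat.unpair q.1).2 +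
        (C.E l (Nat.unpair q.2).1 + (Nat.unpair q.2).2) ≡ ν [MOD 2 ^ l])).image
      (fun q => ((Nat.unpair q.1).1, (Nat.unpair q.2).1))).card ≤ 66 := by
  classical
  set S := (pairs (C.Y (l - C.W e)) (C.T e) ×ˢ pairs (C.Y (l - C.W e)) (C.T e)).filter (fun q =>
      C.E l (Nat.unpair q.1).1 + (Nat.unpair q.1).2 +
        (C.E l (Nat.unpair q.2).1 + (Nat.unpair q.2).2) ≡ ν [MOD 2 ^ l]) with hS
  set g : ℕ × ℕ → ℕ × ℕ := fun q => ((Nat.unpair q.1).1, (Nat.unpair q.2).1) with hg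
  have hW8 := hC.hW8
  have hWl : C.W e ≤ l := by omega
  have hVK : ∀ z, z ∈ pairs (C.Y (l - C.W e)) (C.T e) ↔ z ∈ ETS.RC.VK C e l RKind.RT :=
    fun _ => Iff.rfl
  have hY : ∀ q ∈ S, (Nat.unpair q.1).1 ∈ ETS.RC.Yq ((l - C.W e) / 2) ∧
      (Nat.unpair q.2).1 ∈ ETS.RC.Yq ((l - C.W e) / 2) := by
    intro q hq
    rw [hS, mem_filter, mem_product, mem_pairs, mem_pairs, hC.hY] at hq
    exact ⟨hq.1.1.1, hq.1.2.1⟩
  rcases hl with hl | hl
  · refine le_trans (card_le_card (t := {((1:ℕ), (1:ℕ))}) ?_) (by simp)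
    intro p hp
    obtain ⟨q, hq, rfl⟩ := mem_image.mp hp
    obtain ⟨h1, h2⟩ := hY q hq
    rw [show (l - C.W e) / 2 = 0 by omega, ETS.RC.Yq_zero, mem_singleton] at h1 h2
    rw [mem_singleton, hg]
    simp only [h1, h2]
  · have hch : ∀ p ∈ S.image g, ∃ q ∈ S, g q = p := fun p hp => mem_image.mp hp
    choose! f hf1 hf2 using hch
    have hcard : ((S.image g).image f).card = (S.image g).card := by
      refine card_image_of_injOn ?_
      intro p hp p' hp' he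
      rw [← hf2 p hp, ← hf2 p' hp', he]
    rw [← hcard]
    have hp : ETS.RC.RPos (C.W e) l RKind.RT 0 0 :=
      ETS.RC.rpos_zero (by omega) (by simp only [RKind.hi]; omega) hd
    have hok := ETS.RC.rz_ok hC hp 0 0
    have hsub : ∀ q ∈ (S.image g).image f, q ∈ S := by
      intro q hq
      obtain ⟨p, hp, rfl⟩ := mem_image.mp hq
      exact hf1 p hp
    have key := ETS.RC.gen3 (l := l) (h := (l - C.W e) / 2) (h' := (l - C.W e) / 2)
      (W := C.W e) (r := 1) (by omega) (by omega) ((S.image g).image f)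
      (fun q => (Nat.unpair q.1).1) (fun q => (Nat.unpair q.2).1)
      (ETS.RC.Cst ν (RKind.RT.rz C e 0 0 0 0) (RKind.RT.rz C e 0 0 0 0)) ?_ ?_
    · simpa using key
    · intro q hq
      have hqS := hsub q hq
      obtain ⟨h1, h2⟩ := hY q hqS
      refine ⟨h1, h2, ?_⟩
      rw [hS, mem_filter, mem_product] at hqS
      have hs : (ETS.RC.asV RKind.RT q.1, ETS.RC.asV RKind.RT q.2) ∈
          ETS.RC.Sol l ν (RKind.RT.rz C e 0 0 0 0) (RKind.RT.rz C e 0 0 0 0) := by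
        rw [ETS.RC.mem_Sol]
        refine ⟨⟨ETS.RC.asV_mem hC _ 0 0 hqS.1.1, ETS.RC.asV_mem hC _ 0 0 hqS.1.2⟩, ?_⟩
        exact ((ETS.RC.asV_val hC _ 0 0 (fun _ => rfl) _).add
          (ETS.RC.asV_val hC _ 0 0 (fun _ => rfl) _)).trans hqS.2
      obtain ⟨m, a1, a2⟩ := ETS.RC.approx hok hok le_rfl hs
      have hT1 : (Nat.unpair q.1).2 < 2 ^ C.W e := hC.hT _ (mem_pairs.mp hqS.1.1).2
      have hT2 : (Nat.unpair q.2).2 < 2 ^ C.W e := hC.hT _ (mem_pairs.mp hqS.1.2).2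
      have b1 : ((Nat.unpair q.1).2 : ℝ) ≤ 2 ^ C.W e := by exact_mod_cast hT1.le
      have b2 : ((Nat.unpair q.2).2 : ℝ) ≤ 2 ^ C.W e := by exact_mod_cast hT2.le
      have b3 : (0:ℝ) ≤ ((Nat.unpair q.1).2 : ℝ) := Nat.cast_nonneg _
      have b4 : (0:ℝ) ≤ ((Nat.unpair q.2).2 : ℝ) := Nat.cast_nonneg _
      have hu : (RKind.RT.rz C e 0 0 0 0).u = 0 := rfl
      simp only [hu, Nat.sub_zero, ETS.RC.asV, pow_zero, div_one] at a1 a2
      exact ⟨m, by linarith, by linarith⟩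
    · intro y₀ y₀' S' hS' hs
      rw [card_le_one]
      intro q hq q' hq'
      obtain ⟨p, hp, rfl⟩ := mem_image.mp (hS' hq)
      obtain ⟨p', hp', rfl⟩ := mem_image.mp (hS' hq')
      have e1 := hs _ hq
      have e2 := hs _ hq'
      have e3 : g (f p) = g (f p') := by
        rw [hg]
        simp only [Prod.mk.injEq]
        exact ⟨e1.1.trans e2.1.symm, e1.2.trans e2.2.symm⟩
      rw [hf2 p hp, hf2 p' hp'] at e3
      rw [e3]

/-- `RT` against `RT` -/
theorem PBw_RTRT (hC : RBase C e) {b v : ℕ} (hv : b + C.W e ≤ v) (hd : C.W e ∣ v - b) :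
    PBw (famB (C.T e) (C.W e)) (rgOf C (Reg.RT e b v)) (rgOf C (Reg.RT e b v)) 66 := by
  classical
  intro ν w D hw
  have hW8 := hC.hW8
  refine le_trans (sum_fib_le (N := 66) (D := D) (T := C.T e) (n := C.W e) _
    (fun q : ℕ × ℕ => ((Nat.unpair q.1).1, (Nat.unpair q.2).1))
    (fun q : ℕ × ℕ => ((Nat.unpair q.1).2, (Nat.unpair q.2).2)) ?_ hw ?_ ?_ ?_)
    (Nat.mul_le_mul_left _ (le_lc D))
  · refine card_yy_le hC (l := v - b) (ν := ν) ?_ hd
    obtain ⟨k, hk⟩ := hd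
    rcases k with _ | _ | k
    · omega
    · left; rw [hk]; ring
    · right
      rw [hk]
      have : C.W e * (k + 1 + 1) = C.W e * k + 2 * C.W e := by ring
      omega
  · intro q hq
    rw [mem_filter, mem_product] at hq
    exact ⟨(mem_pairs.mp hq.1.1).2, (mem_pairs.mp hq.1.2).2⟩
  · intro q _ r _ h1 h2
    simp only [Prod.mk.injEq] at h1 h2
    refine Prod.ext ?_ ?_
    · rw [← Nat.pair_unpair q.1, ← Nat.pair_unpair r.1, h1.1, h2.1]
    · rw [← Nat.pair_unpair q.2, ← Nat.pair_unpair r.2, h1.2, h2.2]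
  · intro q hq r hr h1
    rw [mem_filter] at hq hr
    simp only [Prod.mk.injEq] at h1
    have e1 : C.E (v - b) (Nat.unpair q.1).1 + (Nat.unpair q.1).2 +
        (C.E (v - b) (Nat.unpair q.2).1 + (Nat.unpair q.2).2) ≡
        C.E (v - b) (Nat.unpair r.1).1 + (Nat.unpair r.1).2 +
        (C.E (v - b) (Nat.unpair r.2).1 + (Nat.unpair r.2).2) [MOD 2 ^ (v - b)] :=
      hq.2.trans hr.2.symm
    rw [h1.1, h1.2] at e1
    rw [add_add_add_comm, add_add_add_comm (C.E (v - b) (Nat.unpair r.1).1) _ _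
      (Nat.unpair r.2).2] at e1
    exact (Nat.ModEq.add_left_cancel' _ e1).of_dvd
      (pow_dvd_pow 2 (show C.W e ≤ v - b by omega))

open Pool.Agent.Helper41.ETPP Pool.Agent.Helper83.ET in
/-- `PT` against `PT` -/
theorem PBw_PTPT {c : Code} {p f b : ℕ} (hX : ∀ l, C.X p l = c.X l)
    (hP : ∀ l x, C.P p l x = c.P l x) (hfb : f ≤ b) :
    PBw (famB (C.T e) (C.W e)) (rgOf C (Reg.PT p e f b)) (rgOf C (Reg.PT p e f b)) 2 := by
  classical
  intro ν w D hw
  have hlen : (rgOf C (Reg.PT p e f b)).len = (b - f) + C.W e := by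
    show b + C.W e - f = _
    omega
  have hmem : ∀ q ∈ ((rgOf C (Reg.PT p e f b)).V ×ˢ (rgOf C (Reg.PT p e f b)).V).filter
      (fun q => (rgOf C (Reg.PT p e f b)).c q.1 + (rgOf C (Reg.PT p e f b)).c q.2 ≡ ν
        [MOD 2 ^ (rgOf C (Reg.PT p e f b)).len]),
      (((Nat.unpair q.1).1 ∈ c.X (b - f) ∧ (Nat.unpair q.1).2 ∈ C.T e) ∧
        ((Nat.unpair q.2).1 ∈ c.X (b - f) ∧ (Nat.unpair q.2).2 ∈ C.T e)) ∧
      c.P (b - f + C.W e) (Nat.unpair q.1).1 + c.P (b - f + C.W e) (Nat.unpair q.2).1 +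
        2 ^ (b - f) * ((Nat.unpair q.1).2 + (Nat.unpair q.2).2) ≡ ν
        [MOD 2 ^ (b - f + C.W e)] := by
    intro q hq
    rw [mem_filter, mem_product, hlen] at hq
    have h1 := mem_pairs.mp hq.1.1
    have h2 := mem_pairs.mp hq.1.2
    rw [hX] at h1 h2
    refine ⟨⟨h1, h2⟩, ?_⟩
    have h3 : C.P p (b + C.W e - f) (Nat.unpair q.1).1 + 2 ^ (b - f) * (Nat.unpair q.1).2 +
        (C.P p (b + C.W e - f) (Nat.unpair q.2).1 + 2 ^ (b - f) * (Nat.unpair q.2).2) ≡ ν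
        [MOD 2 ^ (b - f + C.W e)] := hq.2
    rw [show b + C.W e - f = b - f + C.W e by omega, hP, hP] at h3
    refine Nat.ModEq.trans ?_ h3
    have : ∀ x y m : ℕ, x = y → x ≡ y [MOD m] := fun x y m h => by rw [h]
    apply this
    ring
  refine le_trans (sum_fib_le (N := 2) (D := D) (T := C.T e) (n := C.W e) _
    (fun q : ℕ × ℕ => ((Nat.unpair q.1).1, (Nat.unpair q.2).1))
    (fun q : ℕ × ℕ => ((Nat.unpair q.1).2, (Nat.unpair q.2).2)) ?_ hw ?_ ?_ ?_)
    (Nat.mul_le_mul_left _ (le_lc D))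
  · -- pairs `(x, x')`
    have h3 := pp_pairs c (b - f) (b - f) (b - f) (b - f) (ν % 2 ^ (b - f)) le_rfl le_rfl
      (by omega)
    rw [show b - f - (b - f + 2) = 0 by omega, pow_zero, mul_one] at h3
    refine le_trans (card_le_card ?_) h3
    intro y hy
    obtain ⟨q, hq, rfl⟩ := mem_image.mp hy
    obtain ⟨⟨m1, m2⟩, m3⟩ := hmem q hq
    rw [mem_filter, mem_product]
    refine ⟨⟨m1.1, m2.1⟩, ?_⟩
    have e0 := m3.of_dvd (pow_dvd_pow 2 (show b - f ≤ b - f + C.W e by omega))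
    have e1 := P_ext c (show b - f ≤ b - f + C.W e by omega) (c.X_mod m1.1)
    have e2 := P_ext c (show b - f ≤ b - f + C.W e by omega) (c.X_mod m2.1)
    have e3 : 2 ^ (b - f) * ((Nat.unpair q.1).2 + (Nat.unpair q.2).2) ≡ 0 [MOD 2 ^ (b - f)] := by
      rw [Nat.modEq_zero_iff_dvd]
      exact Dvd.intro _ rfl
    have e4 := (e1.add e2).add e3
    rw [add_zero] at e4
    exact e4.symm.trans e0
  · intro q hq
    obtain ⟨⟨m1, m2⟩, -⟩ := hmem q hq
    exact ⟨m1.2, m2.2⟩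
  · intro q _ r _ h1 h2
    simp only [Prod.mk.injEq] at h1 h2
    refine Prod.ext ?_ ?_
    · rw [← Nat.pair_unpair q.1, ← Nat.pair_unpair r.1, h1.1, h2.1]
    · rw [← Nat.pair_unpair q.2, ← Nat.pair_unpair r.2, h1.2, h2.2]
  · intro q hq r hr h1
    obtain ⟨-, m3⟩ := hmem q hq
    obtain ⟨-, m3'⟩ := hmem r hr
    simp only [Prod.mk.injEq] at h1
    have e1 := m3.trans m3'.symm
    rw [h1.1, h1.2] at e1
    have e3 := Nat.ModEq.add_left_cancel' _ e1
    rw [pow_add] at e3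
    exact Nat.ModEq.mul_left_cancel' (by positivity) e3

end Pool.Agent.E3
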