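import Mathlib
import Pool.Agent.Helper16.E3.NearDefs

/-!
# E-T (MP_12a1af_nt), phase 3: the last region, prescribed hash values in the layout
-/

variable [Pool.Agent.Helper29.E3.EpFn]

open Finset

namespace Pool.Agent.E3

open Pool.Agent.ETS (Codes Reg IsRest runs IsRun IsCut runs_of_le runs_of_lt rend lt_rend rend_le
  rend_spec of_lt_rend rend_eq isRun_of_mem' runs_split' runs_const runs_congr' PB Pl Hash)
open Pool.Agent.Helper29.ETK (Kid CC)
open Pool.Agent.Helper29.E3 (Kid2 kid kid2 kidU kidB ep Wd Hd Ld hh ll av wb zb un mb sb KidOK KCut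
  KidSize TopOK Rest2 rank2 fb epo CellAt cellKid UnitAt BlockAt unitKid blockKid NearRest NearCell
  NearUnit NearBlock OmAt NearK2 om gridL)

variable {c t : ℕ} {D : Codes2}

/-- the last run ends at `w` -/
lemma getLast?_runs {α : Type*} [DecidableEq α] {φ : ℕ → α} : ∀ (n u w : ℕ), w - u ≤ n →
    ∀ q, (runs φ w u).getLast? = some q → q.2.2 = w
  | 0, u, w, hn, q, hq => by
    rw [runs_of_le _ (by omega)] at hq
    simp at hq
  | n + 1, u, w, hn, q, hq => by
    rcases lt_or_ge u w with hlt | hge
    · rw [runs_of_lt φ hlt] at hq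
      have h3 := lt_rend φ u w
      have h4 := rend_le φ hlt
      rcases Nat.eq_or_lt_of_le h4 with h5 | h5
      · rw [h5, runs_of_le _ le_rfl] at hq
        simp only [List.getLast?_singleton, Option.some.injEq] at hq
        rw [← hq]
      · rw [List.getLast?_cons_of_ne_nil (by rw [runs_of_lt _ h5]; simp)] at hq
        exact getLast?_runs n _ w (by omega) q hq
    · rw [runs_of_le _ hge] at hq
      simp at hq

lemma toRegs2_ne_nil (q : Kid2 × ℕ × ℕ) : toRegs2 c t q ≠ [] := by
  obtain ⟨k, s, e⟩ := q
  cases k with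
  | old k =>
    cases k <;> simp only [toRegs2, toRegs] <;> (try split_ifs) <;> simp
  | _ => simp [toRegs2]

lemma getLast?_flatMap' {α β : Type*} {f : α → List β} (hf : ∀ a, f a ≠ []) :
    ∀ (l : List α) (x : β), (l.flatMap f).getLast? = some x →
      ∃ a, l.getLast? = some a ∧ (f a).getLast? = some x
  | [], x, h => by simp at h
  | [a], x, h => by
    simp only [List.flatMap_cons, List.flatMap_nil, List.append_nil] at h
    exact ⟨a, rfl, h⟩
  | a :: b :: l, x, h => by
    rw [List.flatMap_cons, List.getLast?_append_of_ne_nil _ (by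
      rw [List.flatMap_cons]
      intro h1
      exact hf b (List.append_eq_nil_iff.mp h1).1)] at h
    obtain ⟨q, hq, hq'⟩ := getLast?_flatMap' hf (b :: l) x h
    exact ⟨q, by rw [List.getLast?_cons_cons]; exact hq, hq'⟩

/-- **the last region below a cut above `wb` is not `PT`** -/
lemma last_core (H : KidOK c t) (T : TopOK c t) {w : ℕ} (hw : GoodCut2 c t w)
    (hwb : wb c t ≤ w) {r : Rg} (hr : ((bodyTo c t 0 w).map (Reg2.rg D)).getLast? = some r) :
    ∀ x, r.blk (r.core x) = r.blk x := by
  rw [List.getLast?_map, Option.map_eq_some_iff] at hr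
  obtain ⟨r2, hr2, rfl⟩ := hr
  unfold bodyTo at hr2
  obtain ⟨q, hq, hq'⟩ := getLast?_flatMap' toRegs2_ne_nil _ _ hr2
  have hqw := getLast?_runs _ 0 w le_rfl q hq
  have hmem : q ∈ runs (kid2 c t) w 0 := List.mem_of_getLast? hq
  have hrun := isRun_of_mem' _ hmem
  obtain ⟨k, s, e⟩ := q
  simp only at hqw
  subst hqw
  cases k with
  | old k =>
    obtain ⟨h1, h2⟩ := isRun_old hrun
    have hew : min e (wb c t) = e := min_eq_left h1
    cases k with
    | PT g b =>
      have h3 := h2
      obtain ⟨-, h4, h5, h6, -, -⟩ := h3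
      simp only at h4 h5 h6
      have hcut := cut_PT H (hw.old T.wbz) (by omega) (h6 s le_rfl h4)
      obtain ⟨h7, h8⟩ := run_PT H (by omega) h2 hcut
      obtain ⟨g1, g2, g3, g4, g5, -⟩ := H.PT s g b (by omega) (h6 s le_rfl h4)
      have hav : av c t = b + Wd c b := by omega
      simp only [toRegs2, toRegs] at hq'
      rw [if_pos hav] at hq'
      simp only [List.map_cons, List.map_nil, List.getLast?_cons_cons, List.getLast?_singleton,
        Option.some.injEq] at hq'
      subst hq'
      intro x; rfl
    | _ =>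
      simp only [toRegs2, toRegs, List.map_cons, List.map_nil, List.getLast?_singleton,
        Option.some.injEq] at hq'
      subst hq'
      intro x; rfl
  | _ =>
    simp only [toRegs2, List.getLast?_singleton, Option.some.injEq] at hq'
    subst hq'
    intro x; rfl

/-- hash value at Omega -/
lemma om_hash (H : KidOK c t) (T : TopOK c t) {Δ : ℕ → Dt} (ho : OmAt c t (om c t)) {h : Hash}
    (hh : OKh (nf c t) (h0 D Δ c t) h) {x : List ℕ}
    (hx : x ∈ Vs ((bodyTo c t 0 (om c t)).map (Reg2.rg D))) :
    nexts ((bodyTo c t 0 (om c t)).map (Reg2.rg D)) h x [] =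
      (Δ t).H (tau ((bodyTo c t 0 (om c t)).map (Reg2.rg D)) x) := by
  have hl := length_of_mem_Vs hx
  have hk := length_kz hl
  rw [nexts_key hl, hh]
  · unfold h0
    rw [if_pos (by rw [List.length_reverse, hk, List.length_map]; rfl), List.reverse_reverse,
      tau_kz hl (fun r hr => last_core H T (goodCut_om T ho) ho.wb hr)]
  · unfold nf
    rw [mem_insert]
    left
    rw [List.length_reverse, hk, List.length_map]
    rfl

/-- hash value at the zone -/
lemma zone_hash {Δ : ℕ → Dt} {Lo Mid Z : List Reg2} {o : ℕ} {h : Hash}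
    (hh : OKh (nf c t) (h0 D Δ c t) h) (hLo : Lo.length = idxOm c t)
    (hb : body c t = Lo ++ ([.cell (Ld c o) o] ++ (Mid ++ Z))) (hMid : Mid ++ Z ≠ [])
    {x y u : List ℕ} {ω : ℕ} (hx : x ∈ Vs (Lo.map (Reg2.rg D)))
    (hy : y ∈ Vs (Mid.map (Reg2.rg D))) (hu : u ∈ Vs (Z.map (Reg2.rg D))) :
    nexts (Z.map (Reg2.rg D)) (nexts (Mid.map (Reg2.rg D))
      ((cellRg o (Ld c o) (D.Sd (Ld c o))).next (nexts (Lo.map (Reg2.rg D)) h x) ω) y) u [] =
      (Δ t).S ω := by
  have l1 := length_of_mem_Vs hx
  have l2 := length_of_mem_Vs hy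
  have l3 := length_of_mem_Vs hu
  set O := cellRg o (Ld c o) (D.Sd (Ld c o)) with hO
  have hbody : (body c t).map (Reg2.rg D) = Lo.map (Reg2.rg D) ++
      ([O] ++ (Mid.map (Reg2.rg D) ++ Z.map (Reg2.rg D))) := by
    rw [hb, List.map_append, List.map_append, List.map_append]
    rfl
  have hlen : (x ++ ([ω] ++ (y ++ u))).length = ((body c t).map (Reg2.rg D)).length := by
    rw [hbody]
    simp only [List.length_append, l1, l2, l3, List.length_cons, List.length_nil]
  have e1 : nexts (Z.map (Reg2.rg D)) (nexts (Mid.map (Reg2.rg D))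
      (O.next (nexts (Lo.map (Reg2.rg D)) h x) ω) y) u [] =
      nexts ((body c t).map (Reg2.rg D)) h (x ++ ([ω] ++ (y ++ u))) [] := by
    rw [hbody, nexts_append l1, nexts_append (A := [O]) (a := [ω]) rfl, nexts_append l2]
    rfl
  rw [e1, nexts_key hlen]
  have hk := length_kz hlen
  have hne : Mid.map (Reg2.rg D) ++ Z.map (Reg2.rg D) ≠ [] := by
    rw [← List.map_append]
    intro h1
    exact hMid (List.map_eq_nil_iff.mp h1)
  have hidx : idxOm c t < (body c t).length := by
    rw [hb]
    simp only [List.length_append, List.length_cons, List.length_nil]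
    omega
  rw [hh]
  · unfold h0
    rw [if_neg (by rw [List.length_reverse, hk, List.length_map]; omega), List.reverse_reverse]
    congr 1
    rw [hbody, kz_append l1 (by simp) (by
      simp only [List.length_append, l2, l3, List.length_cons, List.length_nil]),
      kz_append (A := [O]) (a := [ω]) rfl hne (by
        simp only [List.length_append, l2, l3])]
    have l1' : x.length = idxOm c t := by rw [l1, List.length_map, hLo]
    rw [List.getD_eq_getElem?_getD, List.getElem?_append_right (by omega), l1', Nat.sub_self]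
    rfl
  · unfold nf
    rw [mem_insert, mem_singleton]
    right
    rw [List.length_reverse, hk, List.length_map]

end Pool.Agent.E3
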