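import Mathlib
import Pool.Agent.Helper16.E3.Last

/-!
# E-T (MP_12a1af_nt), phase 3: the small cells of the layout as the list `cl`, levels, T-states
-/

variable [Pool.Agent.Helper29.E3.EpFn]

open Finset

namespace Pool.Agent.E3

open Pool.Agent.ETS (Codes Reg IsRest runs IsRun IsCut runs_of_le runs_of_lt rend lt_rend rend_le
  rend_spec of_lt_rend rend_eq isRun_of_mem' runs_split' runs_const runs_congr' PB Pl Hash)
open Pool.Agent.Helper29.ETK (Kid CC kk)
open Pool.Agent.Helper29.E3 (Kid2 kid kid2 kidU kidB ep Wd Hd Ld hh ll av wb zb un mb sb KidOK KCut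
  KidSize TopOK Rest2 rank2 fb epo CellAt cellKid UnitAt BlockAt unitKid blockKid NearRest NearCell
  NearUnit NearBlock OmAt NearK2 om gridL)

variable {c t : ℕ} {D : Codes2}

lemma le_nx_iter (G : Geo) : ∀ (n a : ℕ), a ≤ G.nx^[n] a
  | 0, _ => le_rfl
  | n + 1, a => by
    rw [Function.iterate_succ_apply]
    exact le_trans (Nat.le_add_right _ _) (le_nx_iter G n (G.nx a))

/-- **small cells** -/
lemma cells_cl {G : Geo} (hc : 10 ≤ c) (hln : ∀ s, G.ln s = Ld c s) (hSd : G.Sd = D.Sd) :
    ∀ (n a w : ℕ), G.nx^[n] a = w → 8 ≤ ep c a → sb c a = a →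
    (∀ s, a ≤ s → s < w → kid2 c t s = .cell (sb c s)) →
    (bodyTo c t a w).map (Reg2.rg D) = cl G a n
  | 0, a, w, h1, _, _, _ => by
    have : a = w := h1
    subst this
    unfold bodyTo
    rw [runs_of_le _ le_rfl]
    rfl
  | n + 1, a, w, h1, he, ha, hk => by
    have hL := Ld_pos c a
    have hnx : G.nx a = a + Ld c a := by unfold Geo.nx; rw [hln]
    rw [Function.iterate_succ_apply] at h1
    have hle := le_nx_iter G n (G.nx a)
    rw [h1, hnx] at hle
    have hnext : sb c (a + Ld c a) = a + Ld c a := (gridL c hc).gs_next hc he ha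
    have hmem : ∀ s, a ≤ s → s < a + Ld c a → sb c s = a := fun s h2 h3 =>
      (gridL c hc).gs_of_mem hc (by omega) he ha h2 h3
    have hep : 8 ≤ ep c (a + Ld c a) := he.trans (Helper29.E3.ep_mono (by omega))
    have hcut : IsCut (kid2 c t) a w (a + Ld c a) := by
      rcases Nat.eq_or_lt_of_le hle with h3 | h3
      · exact Or.inr (Or.inl h3)
      · refine Or.inr (Or.inr ⟨by omega, ?_⟩)
        rw [hk _ (by omega) (by omega), hk _ (by omega) h3, hmem _ (by omega) (by omega), hnext]
        intro h4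
        injection h4 with h5
        omega
    rw [bodyTo_append (by omega) hle hcut, List.map_append,
      cells_cl hc hln hSd n (a + Ld c a) w (by rw [← hnx]; exact h1) hep hnext
        (fun s h2 h3 => hk s (by omega) h3)]
    have h5 : bodyTo c t a (a + Ld c a) = [.cell (Ld c a) a] := by
      unfold bodyTo
      rw [runs_const _ (show a < a + Ld c a by omega) (a := .cell a) (fun s h2 h3 => by
        rw [hk s h2 (by omega), hmem s h2 h3])]
      rfl
    rw [h5, hnx.symm]
    show cellRg a (Ld c a) (D.Sd (Ld c a)) :: cl G (G.nx a) n =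
      cellRg a (G.ln a) (G.Sd (G.ln a)) :: cl G (G.nx a) n
    rw [hln, hSd]

/-! ### levels -/

lemma lvl_om {K K' o : ℕ} (T : TopOK c K) (T' : TopOK c K') (h : OmAt c K o) (h' : OmAt c K' o) :
    Lvl c K K' o :=
  ⟨goodCut_om T h, goodCut_om T' h', h.wb, h'.wb⟩

lemma lvl_zb {K K' o : ℕ} (T : TopOK c K) (T' : TopOK c K') (h : OmAt c K o) (h' : OmAt c K' o)
    (hz : zb c K' ≤ zb c K) : Lvl c K K' (zb c K') := by
  have hL := Ld_pos c o
  have h1 := h'.top
  refine ⟨?_, ⟨le_rfl, Or.inl rfl⟩, ?_, T'.wbz⟩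
  · exact goodCut_cell T (om_self h) (by omega) hz T'.zb1.2
  · have := h.wb
    omega

/-! ### the chunk in action is below Omega -/

lemma rank_old {s : ℕ} (h : s < wb c t) : rank2 (kid2 c t s) = 0 := by
  rw [kid2_old h]
  rfl

lemma unit_le_om {b j o : ℕ} (T : TopOK c t) (hj : j ≤ 3) (h : UnitAt c t b j)
    (ho : OmAt c t o) : b + Wd c b ≤ o := by
  have hW := Wd_pos c b
  have hL := Ld_pos c o
  have hot := ho.top
  have hbt := h.top
  have hself := om_self ho
  -- Omega is not in the unit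
  have hkind : ∀ s, b ≤ s → s < b + Wd c b → rank2 (kid2 c t s) < 4 := by
    intro s h1 h2
    rw [h.kid s h1 h2]
    obtain rfl | rfl | rfl | rfl : j = 0 ∨ j = 1 ∨ j = 2 ∨ j = 3 := by omega
    · simp [unitKid, rank2]
    · simp [unitKid, rank2]
    · simp [unitKid, rank2]
    · simp [unitKid, rank2]
  by_contra hn
  push Not at hn
  rcases lt_or_ge o b with h1 | h1
  · have h2 := T.mono o b h1.le (by omega)
    rw [hself] at h2
    have h3 := hkind b le_rfl (by omega)
    have h4 : 4 ≤ rank2 (kid2 c t b) := h2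
    omega
  · have h3 := hkind o h1 hn
    rw [hself] at h3
    simp [rank2] at h3

lemma block_le_om {f j o : ℕ} (T : TopOK c t) (hj0 : 1 ≤ j) (hj : j ≤ 3) (h : BlockAt c t f j)
    (ho : OmAt c t o) : f + Hd c f ≤ o := by
  have hW := Hd_pos c f
  have hL := Ld_pos c o
  have hot := ho.top
  have hbt := h.top
  have hself := om_self ho
  have hkind : ∀ s, f ≤ s → s < f + Hd c f → rank2 (kid2 c t s) < 4 := by
    intro s h1 h2
    rw [h.kid s h1 h2]
    obtain rfl | rfl | rfl : j = 1 ∨ j = 2 ∨ j = 3 := by omega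
    · simp [blockKid, rank2]
    · simp [blockKid, rank2]
    · simp [blockKid, rank2]
  by_contra hn
  push Not at hn
  rcases lt_or_ge o f with h1 | h1
  · have h2 := T.mono o f h1.le (by omega)
    rw [hself] at h2
    have h3 := hkind f le_rfl (by omega)
    have h4 : 4 ≤ rank2 (kid2 c t f) := h2
    omega
  · have h3 := hkind o h1 hn
    rw [hself] at h3
    simp [rank2] at h3

/-! ### T-states -/

lemma ts_unit {b j : ℕ} (hj : j ≤ 3) : tsL (unitRegs c b j) = if j = 2 then .W (ep c b) else .none := by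
  obtain rfl | rfl | rfl | rfl : j = 0 ∨ j = 1 ∨ j = 2 ∨ j = 3 := by omega
  · unfold unitRegs
    rw [if_pos rfl, if_neg (by omega)]
    refine NoTL.tsL ?_
    have : ∀ n u, NoTL (mids (ep c b) (Hd c b) n u) := by
      intro n
      induction n with
      | zero => intro u r hr; simp [mids] at hr
      | succ n ih =>
        intro u r hr
        rw [mids, List.mem_cons] at hr
        rcases hr with rfl | hr
        · rfl
        · exact ih _ r hr
    exact this _ _
  · rfl
  · rfl
  · rfl

lemma ts_block {f j : ℕ} (hj : j ≤ 3) : tsL (blockRegs c f j) = if j = 2 then .H (ep c f) else .none := by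
  obtain rfl | rfl | rfl | rfl : j = 0 ∨ j = 1 ∨ j = 2 ∨ j = 3 := by omega
  · unfold blockRegs
    rw [if_pos rfl, if_neg (by omega)]
    refine NoTL.tsL ?_
    have : ∀ n u, NoTL (cells (Ld c f) n u) := by
      intro n
      induction n with
      | zero => intro u r hr; simp [cells] at hr
      | succ n ih =>
        intro u r hr
        rw [cells, List.mem_cons] at hr
        rcases hr with rfl | hr
        · rfl
        · exact ih _ r hr
    exact this _ _
  · rfl
  · rfl
  · rfl

lemma ts_cellRegs {g b v σ : ℕ} (hσ : σ ≤ 4) : tsR (cellRegs c g b v σ) =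
    if σ = 1 then .W (ep c b) else if σ = 3 ∧ b + Wd c b < v then .W (ep c (b + Wd c b))
      else .none := by
  obtain rfl | rfl | rfl | rfl | rfl : σ = 0 ∨ σ = 1 ∨ σ = 2 ∨ σ = 3 ∨ σ = 4 := by omega
  · rw [ts_cell0]; rfl
  · rw [ts_cell1]; rfl
  · rw [ts_cell2]; rfl
  · rw [ts_cell3]
    simp only [OfNat.ofNat_ne_one, if_false, true_and]
  · rw [ts_cell4]; rfl

/-- the T-state of the layout -/
lemma ts_lay_of_body : tsL (layL c t) = tsL (body c t) := by
  unfold layL
  rw [tsL_append]
  split_ifs with h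
  · rw [h]; rfl
  · rfl

lemma Act.ts {K K' w x0 x1 : ℕ} {X X' : List Reg2} (h : Act c K K' w x0 x1 X X') :
    tsL (bodyTo c K 0 w) = tsL X ∧ tsL (bodyTo c K' 0 w) = tsL X' := by
  obtain ⟨s1, s2⟩ := h.split
  rw [s1, s2]
  exact ⟨tsL_mid h.noT1 h.noT2, tsL_mid h.noT1 h.noT2⟩

/-- above Omega there are only small cells -/
lemma noT_above (T : TopOK c t) {o w : ℕ} (ho : OmAt c t o) (hw : w ≤ zb c t) :
    NoTL (bodyTo c t o w) := by
  refine rest_noT (fun s h1 h2 => ?_)
  rw [cell_above T (om_self ho) h1 (by omega)]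
  trivial

lemma ts_body (T : TopOK c t) {o w : ℕ} (ho : OmAt c t o) (how : o ≤ w) (hw : GoodCut2 c t w) :
    tsL (layL c t) = tsL (bodyTo c t 0 w) := by
  have hz := hw.1
  rw [ts_lay_of_body, body_eq, bodyTo_append (Nat.zero_le _) hz
    (hw.isCut' (Nat.zero_le _) hz le_rfl), tsL_append]
  split_ifs with h
  · rw [h]
    refine (rest_noT (fun s h1 h2 => ?_)).tsL
    rw [cell_above T (om_self ho) (by omega) (by omega)]
    trivial
  · rfl

end Pool.Agent.E3
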