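import Mathlib
import Pool.Agent.Helper16.E3.Cells
import Pool.Agent.Helper29.E3.Top

/-!
# E-T (MP_12a1af_nt), phase 3: the near bound below a cut, for all pairs of `NearK2`
-/

variable [Pool.Agent.Helper29.E3.EpFn]

open Finset

namespace Pool.Agent.E3

open Pool.Agent.ETS (Codes Reg IsRest runs IsRun IsCut runs_of_le runs_of_lt rend lt_rend rend_le
  rend_spec of_lt_rend rend_eq isRun_of_mem' runs_split' runs_const runs_congr' PB Pl Hash)
open Pool.Agent.Helper29.ETK (Kid CC kk)
open Pool.Agent.Helper29.E3 (Kid2 kid kid2 kidU kidB ep Wd Hd Ld hh ll av wb zb un mb sb KidOK KCut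
  KidSize TopOK Rest2 rank2 fb epo CellAt cellKid UnitAt BlockAt unitKid blockKid NearRest NearCell
  NearUnit NearBlock OmAt NearK2 om gridL gridU Big)

variable {c t : ℕ} {D : Codes2} {e1 μ A : ℕ} {QW QH : ℕ → Set (Finset ℕ)}

/-- the epoch of a unit in action -/
lemma ep_act (HB : Big c t) {b j : ℕ} (h : UnitAt c t b j) (hbt : b ≤ t) :
    epo c t ≤ ep c b ∧ ep c b ≤ epo c t + 1 := by
  have hc := HB.hc
  have h1 := Helper29.E3.wb_near_t hc HB.nine
  have h2 := Helper29.E3.ep_wb hc HB.nine
  have hW := h.wb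
  have h10 := HB.ht
  split_ifs at hW with hj
  · have h3 := (gridU c hc).add_le_pow hc (f := b) (Nat.zero_le _) h.ub
    have h3' : b + Wd c b ≤ CC c ^ (Helper29.E3.ms (ep c b + 1)) := h3
    have h4 := (Helper29.E3.ep_ge_iff hc (e := epo c t) (s := wb c t) (by omega)).mp h2.1
    rw [hW] at h4
    have h5 : CC c ^ (Helper29.E3.ms (epo c t)) ≤ CC c ^ (Helper29.E3.ms (ep c b + 1)) :=
      h4.trans h3'
    have h6 : Helper29.E3.ms (epo c t) ≤ Helper29.E3.ms (ep c b + 1) :=
      (Nat.pow_le_pow_iff_right (Helper29.ETK.one_lt_CC hc)).mp h5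
    have h6' := Helper29.E3.epf_mono h6
    rw [Helper29.E3.epf_ms, Helper29.E3.epf_ms] at h6'
    have h7 : ep c b ≤ Helper29.ETK.lg c b := Helper29.E3.ep_le_lg c b
    have h8 := Helper29.E3.Wd_le hc (b := b) (by omega)
    have h9 := Helper29.E3.ep_of_near hc (s := b) (t := t) (by omega) hbt (by omega)
    exact ⟨h9.1, h9.2.1⟩
  · have h9 := Helper29.E3.ep_of_near hc (s := b) (t := t) (by omega) hbt (by omega)
    exact ⟨h9.1, h9.2.1⟩

/-- bound of the exponents -/
structure ExpOK (c t E : ℕ) : Prop where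
  two : 2 ≤ E
  h1 : hh c (epo c t) / ll c (epo c t) ≤ E
  h2 : hh c (epo c t + 1) / ll c (epo c t + 1) ≤ E
  w1 : CC c ^ epo c t / hh c (epo c t) ≤ E
  w2 : CC c ^ (epo c t + 1) / hh c (epo c t + 1) ≤ E

lemma ExpOK.h {E e : ℕ} (h : ExpOK c t E) (h1 : epo c t ≤ e) (h2 : e ≤ epo c t + 1) :
    hh c e / ll c e ≤ E := by
  obtain rfl | rfl : e = epo c t ∨ e = epo c t + 1 := by omega
  · exact h.h1
  · exact h.h2

lemma ExpOK.w {E e : ℕ} (h : ExpOK c t E) (h1 : epo c t ≤ e) (h2 : e ≤ epo c t + 1) :
    CC c ^ e / hh c e ≤ E := by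
  obtain rfl | rfl : e = epo c t ∨ e = epo c t + 1 := by omega
  · exact h.w1
  · exact h.w2

/-- **the near bound below a cut** -/
theorem low_NBw (HC : NearCodes2 c e1 D μ A QW QH) {K K' w E : ℕ} (HK : At c e1 K)
    (HK' : At c e1 K') (HB : Big c K) (HB' : Big c K') (hE : ExpOK c K' E)
    (hN : NearK2 c K K') (hw : Lvl c K K' w) (hw' : w ≤ zb c K')
    (hbu : ∀ b j j', NearUnit c K K' b j j' → b + Wd c b ≤ w)
    (hbb : ∀ f j j', NearBlock c K K' f j j' → f + Hd c f ≤ w) :
    NBw (LF D QW QH (tsL (bodyTo c K 0 w)) (tsL (bodyTo c K' 0 w)))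
      ((bodyTo c K 0 w).map (Reg2.rg D)) ((bodyTo c K' 0 w).map (Reg2.rg D)) w
      (μ ^ (kws c (bodyTo c K' 0 w) + E) * A) := by
  have hμ : 1 ≤ μ := le_trans (by norm_num) HC.mu
  have hA := HC.oneA
  have hzK' := zb_le HK'.top
  -- from a chunk in action
  have fin : ∀ {x0 x1 B n : ℕ} {X X' : List Reg2}, Act c K K' w x0 x1 X X' →
      NBw (LF D QW QH (tsL X) (tsL X')) (X.map (Reg2.rg D)) (X'.map (Reg2.rg D)) x1 B →
      B ≤ μ ^ n * A → n ≤ E →
      NBw (LF D QW QH (tsL (bodyTo c K 0 w)) (tsL (bodyTo c K' 0 w)))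
        ((bodyTo c K 0 w).map (Reg2.rg D)) ((bodyTo c K' 0 w).map (Reg2.rg D)) w
        (μ ^ (kws c (bodyTo c K' 0 w) + E) * A) := by
    intro x0 x1 B n X X' hact hNB hB hn
    obtain ⟨t1, t2⟩ := hact.ts
    have h1 := hact.NBw HC HK HK' hNB t1 t2
    refine h1.mono ?_
    have h2 : kws c (bodyTo c K' 0 x0) + kws c (bodyTo c K' x1 w) ≤ kws c (bodyTo c K' 0 w) := by
      rw [hact.split.2, kws_append, kws_append]
      omega
    calc μ ^ (kws c (bodyTo c K' 0 x0) + kws c (bodyTo c K' x1 w)) * B
        ≤ μ ^ (kws c (bodyTo c K' 0 x0) + kws c (bodyTo c K' x1 w)) * (μ ^ n * A) :=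
          Nat.mul_le_mul_left _ hB
      _ = μ ^ (kws c (bodyTo c K' 0 x0) + kws c (bodyTo c K' x1 w) + n) * A := by
          rw [pow_add _ _ n]; ring
      _ ≤ _ := Nat.mul_le_mul_right _ (Nat.pow_le_pow_right hμ (by omega))
  rcases hN.act with h | ⟨g, b, v, σ, σ', h⟩ | ⟨b, j, j', h⟩ | ⟨f, j, j', h⟩
  · -- rest
    refine fin (n := 0) (act_rest h hw hw') (NBw_nil mem_fam0) ?_ (Nat.zero_le _)
    simpa using hA
  · -- a cell
    have hg := h.cell.hg
    have hb := h.cell.hb
    have he : e1 ≤ ep c b := e1_le HK.big h.cell.low HK.c1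
    have he' : e1 ≤ ep c (b + Wd c b) := he.trans (Helper29.E3.ep_mono (by omega))
    have h1 := NBw_cell HC (E3.CellAt.geo h.cell) h.hσ h.hσ' h.adj he he'
    rw [← map_old, ← map_old] at h1
    refine fin (n := 2) (act_cell HK.ok HK'.ok h hw hw') h1 ?_ hE.two
    rw [pow_two]
  · -- a unit
    have hbw := hbu b j j' h
    have hWp := Wd_pos c b
    have hep := ep_act HB' h.unit' (by omega)
    have h10 := HB'.ht
    have hkk : 4 * c ≤ kk (ep c b) + 10 := by
      have := HB'.hk
      have := Helper29.E3.kk_mono hep.1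
      omega
    have hj' : j' ≤ 3 := by
      have := h.adj
      have := h.hj
      omega
    have h1 := HC.unit b j j' (HK'.epo.trans hep.1)
      ((gridU c HB.hc).gs_eq_iff.mp h.unit.ub) h.hj hj' (by
        rcases h.adj with h2 | h2
        · exact Or.inl h2
        · exact Or.inr (Or.inl h2))
    refine fin (n := Wd c b / Hd c b) (act_unit HB.hc h hw hw' hbw (by omega) hkk) h1 ?_
      (hE.w hep.1 hep.2)
    exact Nat.le_mul_of_pos_right _ hA
  · -- a mid block
    have hfw := hbb f j j' h
    have hHp := Hd_pos c f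
    have hep := HK'.top.ep f h.block'.wb (by omega)
    have h10 := HB'.ht
    have hj' : j' ≤ 3 := by
      have := h.adj
      have := h.hj
      omega
    have h1 := HC.block f j j' (HK'.epo.trans hep.1)
      ((Helper29.E3.gridH c HB.hc).gs_eq_iff.mp h.block.bf) h.hj hj' (by
        rcases h.adj with h2 | h2
        · exact Or.inl h2
        · exact Or.inr (Or.inl h2))
    refine fin (n := Hd c f / Ld c f) (act_block HB.hc h hw hw' hfw (by omega)) h1 ?_
      (hE.h hep.1 hep.2)
    exact Nat.le_mul_of_pos_right _ hA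

/-! ### the sum of the exponents -/

lemma runs_sorted {α : Type*} [DecidableEq α] {φ : ℕ → α} : ∀ (n u w : ℕ), w - u ≤ n →
    (runs φ w u).Pairwise (fun q q' => q.2.1 < q'.2.1)
  | 0, u, w, hn => by
    rw [runs_of_le _ (by omega)]
    exact List.Pairwise.nil
  | n + 1, u, w, hn => by
    rcases lt_or_ge u w with hlt | hge
    · rw [runs_of_lt φ hlt, List.pairwise_cons]
      have h3 := lt_rend φ u w
      refine ⟨?_, runs_sorted n _ w (by omega)⟩
      intro q hq
      have h4 := (isRun_of_mem' _ hq).1
      show u < q.2.1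
      omega
    · rw [runs_of_le _ hge]
      exact List.Pairwise.nil

lemma countP_le_one {α : Type*} {p : α × ℕ × ℕ → Bool} {b : ℕ} : ∀ {l : List (α × ℕ × ℕ)},
    l.Pairwise (fun q q' => q.2.1 < q'.2.1) → (∀ q ∈ l, p q = true → q.2.1 = b) →
    l.countP p ≤ 1
  | [], _, _ => by simp
  | a :: l, h1, h2 => by
    rw [List.pairwise_cons] at h1
    have ih := countP_le_one h1.2 (fun q hq => h2 q (List.mem_cons_of_mem _ hq))
    rw [List.countP_cons]
    split_ifs with hp
    · have h3 := h2 a List.mem_cons_self hp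
      have h4 : l.countP p = 0 := by
        rw [List.countP_eq_zero]
        intro q hq hpq
        have h5 := h1.1 q hq
        have h6 := h2 q (List.mem_cons_of_mem _ hq) hpq
        omega
      omega
    · omega

/-- composite unit -/
def isC2 (q : Kid2 × ℕ × ℕ) : Bool := match q.1 with
  | .C2 _ => true
  | _ => false

/-- composite mid block -/
def isC1 (q : Kid2 × ℕ × ℕ) : Bool := match q.1 with
  | .C1 _ => true
  | _ => false

lemma kws_flat {E : ℕ} : ∀ l : List (Kid2 × ℕ × ℕ),
    (∀ q ∈ l, (∀ b, q.1 = .C2 b → CC c ^ ep c b / hh c (ep c b) ≤ E) ∧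
      (∀ f, q.1 = .C1 f → hh c (ep c f) / ll c (ep c f) ≤ E)) →
    kws c (l.flatMap (toRegs2 c t)) ≤
      (l.flatMap (toRegs2 c t)).length + E * (l.countP isC2 + l.countP isC1)
  | [], _ => by simp [kws]
  | q :: l, h => by
    have ih := kws_flat l (fun q hq => h q (List.mem_cons_of_mem _ hq))
    obtain ⟨h1, h2⟩ := h q List.mem_cons_self
    rw [List.flatMap_cons, kws_append, List.length_append, List.countP_cons, List.countP_cons]
    have h3 : kws c (toRegs2 c t q) ≤ (toRegs2 c t q).length +
        E * ((if isC2 q = true then 1 else 0) + (if isC1 q = true then 1 else 0)) := by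
      obtain ⟨k, s, e⟩ := q
      cases k with
      | C2 b =>
        have := h1 b rfl
        simp only [toRegs2, kws, kw, List.map_cons, List.map_nil, List.sum_cons, List.sum_nil,
          List.length_cons, List.length_nil, isC2, isC1, if_true]
        simp
        omega
      | C1 f =>
        have := h2 f rfl
        simp only [toRegs2, kws, kw, List.map_cons, List.map_nil, List.sum_cons, List.sum_nil,
          List.length_cons, List.length_nil, isC2, isC1, if_true]
        simp
        omega
      | old k =>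
        have h4 : ∀ l : List Reg, kws c (l.map Reg2.old) = (l.map Reg2.old).length := by
          intro l
          unfold kws
          induction l with
          | nil => rfl
          | cons a l ih =>
            simp only [List.map_cons, List.sum_cons, List.length_cons, kw]
            simp only [List.map_map, List.length_map] at ih
            simp only [List.map_map, List.length_map]
            omega
        simp only [toRegs2, isC2, isC1]
        rw [h4]
        simp
      | _ =>
        simp only [toRegs2, kws, kw, List.map_cons, List.map_nil, List.sum_cons, List.sum_nil,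
          List.length_cons, List.length_nil, isC2, isC1]
        simp
    have h5 : E * (l.countP isC2 + (if isC2 q = true then 1 else 0) +
        (l.countP isC1 + (if isC1 q = true then 1 else 0))) =
        E * (l.countP isC2 + l.countP isC1) +
        E * ((if isC2 q = true then 1 else 0) + (if isC1 q = true then 1 else 0)) := by ring
    rw [h5]
    omega

/-- **the sum of the exponents of the layout** -/
theorem kws_body (T : TopOK c t) {E : ℕ} (hE : ExpOK c t E) :
    kws c (body c t) ≤ (body c t).length + 2 * E := by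
  have hz := zb_le T
  have hsort := runs_sorted (φ := kid2 c t) _ 0 (zb c t) le_rfl
  have hw : GoodCut2 c t (zb c t) := ⟨le_rfl, Or.inl rfl⟩
  have hk : ∀ q ∈ runs (kid2 c t) (zb c t) 0, IsRun (kid2 c t) 0 (zb c t) q :=
    fun q hq => isRun_of_mem' _ hq
  unfold body
  refine (kws_flat (c := c) (t := t) (E := E) _ ?_).trans ?_
  · intro q hq
    have hr := hk q hq
    obtain ⟨k, s, e⟩ := q
    refine ⟨?_, ?_⟩
    · intro b hb
      simp only at hb
      subst hb
      obtain ⟨rfl, -, h1, h2⟩ := run_C2 T hw hr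
      have := T.ep s (by omega) (by have := hr.2.1; have := hr.2.2.1; simp only at *; omega)
      exact hE.w this.1 this.2
    · intro f hf
      simp only at hf
      subst hf
      obtain ⟨rfl, -, h1, h2⟩ := run_C1 T hw hr
      have := T.ep s (by omega) (by have := hr.2.1; have := hr.2.2.1; simp only at *; omega)
      exact hE.h this.1 this.2
  · have c1 : (runs (kid2 c t) (zb c t) 0).countP isC2 ≤ 1 := by
      refine countP_le_one (b := wb c t) hsort ?_
      intro q hq hp
      have hr := hk q hq
      obtain ⟨k, s, e⟩ := q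
      cases k with
      | C2 b =>
        obtain ⟨h0, -, h1, -⟩ := run_C2 T hw hr
        simp only
        omega
      | _ => simp [isC2] at hp
    have c2 : (runs (kid2 c t) (zb c t) 0).countP isC1 ≤ 1 := by
      refine countP_le_one (b := fb c t) hsort ?_
      intro q hq hp
      have hr := hk q hq
      obtain ⟨k, s, e⟩ := q
      cases k with
      | C1 f =>
        have hr' := hr
        obtain ⟨h0, -, h1, -⟩ := run_C1 T hw hr
        obtain ⟨-, h2, h3, h4, -, -⟩ := hr'
        simp only at h2 h3 h4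
        have h5 := (T.C1 s f (by omega) (h4 s le_rfl h2)).1
        simp only
        omega
      | _ => simp [isC1] at hp
    have : E * ((runs (kid2 c t) (zb c t) 0).countP isC2 +
        (runs (kid2 c t) (zb c t) 0).countP isC1) ≤ E * 2 := Nat.mul_le_mul_left _ (by omega)
    omega

end Pool.Agent.E3
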