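import Mathlib
import Pool.Agent.Helper16.E3.Low

/-!
# E-T (MP_12a1af_nt), phase 3: the near theorem
-/

variable [Pool.Agent.Helper29.E3.EpFn]

open Finset

namespace Pool.Agent.E3

open Pool.Agent.ETS (Codes Reg IsRest runs IsRun IsCut runs_of_le runs_of_lt rend lt_rend rend_le
  rend_spec of_lt_rend rend_eq isRun_of_mem' runs_split' runs_const runs_congr' PB Pl Hash)
open Pool.Agent.Helper29.ETK (Kid CC kk)
open Pool.Agent.Helper29.E3 (Kid2 kid kid2 kidU kidB ep Wd Hd Ld hh ll av wb zb un mb sb KidOK KCut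
  KidSize TopOK Rest2 rank2 fb epo CellAt cellKid UnitAt BlockAt unitKid blockKid NearRest NearCell
  NearUnit NearBlock OmAt NearK2 om gridL gridU Big)

variable {c t : ℕ} {D : Codes2} {e1 μ A : ℕ} {QW QH : ℕ → Set (Finset ℕ)}

/-- constant hash functions -/
lemma nexts_const (s : ℕ) : ∀ (A : List Rg) (z : List ℕ), nexts A (fun _ => s) z = fun _ => s
  | [], _ => rfl
  | _ :: _, [] => rfl
  | r :: A, x :: z => by
    have h1 : r.next (fun _ => s) x = fun _ => s := by
      funext k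
      unfold Rg.next
      split_ifs <;> rfl
    simp only [nexts]
    rw [h1]
    exact nexts_const s A z

/-- the weighted bound without blocks is the plain bound -/
lemma NBw.toNB {A A' : List Rg} {v B : ℕ} (h : NBw fam0 A A' v B) : NB A A' v B := by
  intro g g' ν
  have h1 := h g g' ν (fun _ => 1) 1 (by
    intro L hL
    have : L = {(0, 0)} := hL
    rw [this]
    simp)
  rw [card_eq_sum_ones]
  refine h1.trans (le_of_eq ?_)
  unfold lc
  simp

/-- all hypotheses of the near theorem at one scale -/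
structure Sc (c e1 K : ℕ) : Prop where
  at' : At c e1 K
  big : Big c K

/-- the layout as the lower part and the top -/
lemma lay_split {G : Geo} {Δ : ℕ → Dt} (HL : Link c D QW QH G Δ) {K w n : ℕ} (hK0 : G.K0 ≤ K)
    (hK : Sc c e1 K) {o : ℕ} (ho : OmAt c K o) (how : o ≤ w) (hw : GoodCut2 c K w)
    (hsb : sb c w = w) (hn : G.q K = G.nx^[n] w) :
    lay D c K = (bodyTo c K 0 w).map (Reg2.rg D) ++ (cl G w n ++ [zn G Δ K]) := by
  have hc := hK.big.hc
  have hz := hw.1
  have hL := Ld_pos c o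
  have hzt := zb_le hK.at'.top
  have hbw := ho.wb
  have hep := hK.at'.top.ep w (by omega) (by omega)
  have h10 := hK.big.ht
  unfold lay layL
  rw [body_eq, bodyTo_append (Nat.zero_le _) hz (hw.isCut' (Nat.zero_le _) hz le_rfl),
    List.map_append, List.map_append, List.append_assoc,
    cells_cl (G := G) hc HL.ln HL.Sd n w (zb c K) (by rw [← hn, HL.q K hK0]) (by omega) hsb
      (fun s h1 h2 => cell_above hK.at'.top (om_self ho) (by omega) h2)]
  have hzone : [zoneReg c K].map (Reg2.rg D) = [zn G Δ K] := by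
    show [zoneRg (zb c K) K (Ld c (zb c K)) (D.Sd (Ld c (zb c K))) (D.TK K)] = _
    unfold zn Geo.l
    rw [HL.q K hK0, HL.ln, HL.Sd, HL.TK K hK0]
  rw [hzone]

lemma above_cl {G : Geo} : ∀ (n a : ℕ), Above a (cl G a n)
  | 0, a => above_nil
  | n + 1, a => by
    intro r hr
    rw [cl, List.mem_cons] at hr
    rcases hr with rfl | hr
    · exact le_rfl
    · have := above_cl n (G.nx a) r hr
      exact le_trans (Nat.le_add_right _ _) this

/-- the bound without blocks -/
theorem near_zero {E : ℕ} {G : Geo} {Δ : ℕ → Dt} (HC : NearCodes2 c e1 D μ A QW QH)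
    (HL : Link c D QW QH G Δ) (hG : G.Ok) (hT0 : TopZero G Δ) {K K' : ℕ} (hn : G.Near K K')
    (hK : Sc c e1 K) (hK' : Sc c e1 K') (hN : NearK2 c K K') (hE : ExpOK c K' E)
    (hT : ¬ G.isT K) (hT' : ¬ G.isT K') :
    NBt (lay D c K) (lay D c K')
      (μ ^ (kws c (body c K') + E) * A * (1600 * G.A K * G.b K)) := by
  have hc := hK.big.hc
  have hK0' : G.K0 ≤ K' := hn.1
  have hK0 : G.K0 ≤ K := hn.1.trans hn.2.1
  have hL := Ld_pos c (om c K')
  have hoz := hN.omA.top
  have hlvl := lvl_zb hK.at'.top hK'.at'.top hN.omB hN.omA hN.zbm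
  obtain ⟨n, hcells⟩ := hG.cells K K' hn
  rw [HL.q K' hK0'] at hcells
  have e1' := lay_split (D := D) HL hK0 hK hN.omB (show om c K' ≤ zb c K' by omega) hlvl.w1
    hK'.at'.top.zb1.2 hcells
  have e2' := lay_split (D := D) (n := 0) HL hK0' hK' hN.omA (show om c K' ≤ zb c K' by omega)
    hlvl.w2 hK'.at'.top.zb1.2 (by rw [HL.q K' hK0']; rfl)
  have hlow := low_NBw HC hK.at' hK'.at' hK.big hK'.big hE hN hlvl le_rfl
    (fun b j j' h => h.unit'.top) (fun f j j' h => h.block'.top)
  have t1 := ts_body hK.at'.top hN.omB (show om c K' ≤ zb c K' by omega) hlvl.w1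
  have t2 := ts_body hK'.at'.top hN.omA (show om c K' ≤ zb c K' by omega) hlvl.w2
  rw [HL.isT K hK0, not_not] at hT
  rw [HL.isT K' hK0', not_not] at hT'
  rw [← t1, ← t2, hT, hT'] at hlow
  have hNB : NB ((bodyTo c K 0 (zb c K')).map (Reg2.rg D))
      ((bodyTo c K' 0 (zb c K')).map (Reg2.rg D)) (zb c K')
      (μ ^ (kws c (body c K') + E) * A) := NBw.toNB hlow
  have htop := hT0 K K' n hn (by rw [HL.q K' hK0']; exact hcells)
  rw [HL.q K' hK0'] at htop
  rw [e1', e2']
  refine NB.append_top hNB htop ?_ ?_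
  · refine (above_cl n _).append (above_single ?_)
    show zb c K' ≤ G.q K
    rw [HL.q K hK0]
    exact hN.zbm
  · refine (above_cl 0 _).append (above_single ?_)
    show zb c K' ≤ G.q K'
    rw [HL.q K' hK0']

lemma chain_low (HC : NearCodes2 c e1 D μ A QW QH) {K w : ℕ} (hK : Sc c e1 K)
    (hw : GoodCut2 c K w) : Chain 0 ((bodyTo c K 0 w).map (Reg2.rg D)) w :=
  chain_bodyTo HC.len hK.at'.ok hK.at'.top hK.at'.epo (Nat.zero_le _) hw (Or.inl rfl)

/-- near pairs with a block have the same Omega -/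
lemma om_eq {K K' : ℕ} (hK : Sc c e1 K) (hK' : Sc c e1 K')
    (hN : NearK2 c K K') (hT : tsL (layL c K) ≠ .none ∨ tsL (layL c K') ≠ .none) :
    om c K = om c K' := by
  have hL := Ld_pos c (om c K')
  have hoz := hN.omA.top
  have hlvl := lvl_zb hK.at'.top hK'.at'.top hN.omB hN.omA hN.zbm
  rcases hN.act with h | ⟨g, b, v, σ, σ', h⟩ | ⟨b, j, j', h⟩ | ⟨f, j, j', h⟩
  · exfalso
    have hact := act_rest h hlvl le_rfl
    obtain ⟨t1, t2⟩ := hact.ts
    rw [← ts_body hK.at'.top hN.omB (show om c K' ≤ zb c K' by omega) hlvl.w1] at t1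
    rw [← ts_body hK'.at'.top hN.omA (show om c K' ≤ zb c K' by omega) hlvl.w2] at t2
    rw [t1, t2] at hT
    simp [tsL] at hT
  · rcases h.om with h1 | ⟨rfl, rfl⟩
    · exact h1
    · exfalso
      have hact := act_cell hK.at'.ok hK'.at'.ok h hlvl le_rfl
      obtain ⟨t1, t2⟩ := hact.ts
      rw [← ts_body hK.at'.top hN.omB (show om c K' ≤ zb c K' by omega) hlvl.w1] at t1
      rw [← ts_body hK'.at'.top hN.omA (show om c K' ≤ zb c K' by omega) hlvl.w2] at t2
      have h2 : tsL ((cellRegs c g b v 2).map Reg2.old) = .none := ts_cell2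
      rw [t1, t2, h2] at hT
      simp at hT
  · exact h.om
  · exact h.om

/-- the common cells between Omega and the zone -/
lemma mid_NB (HC : NearCodes2 c e1 D μ A QW QH) {K' o : ℕ} (hK' : Sc c e1 K')
    (ho : OmAt c K' o) :
    NB ((bodyTo c K' (o + Ld c o) (zb c K')).map (Reg2.rg D))
      ((bodyTo c K' (o + Ld c o) (zb c K')).map (Reg2.rg D)) (zb c K')
      (μ ^ kws c (bodyTo c K' (o + Ld c o) (zb c K'))) := by
  have hL := Ld_pos c o
  have hoz := ho.top
  have hzt := zb_le hK'.at'.top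
  have hbw := ho.wb
  have hep := hK'.at'.top.ep o (by omega) (by omega)
  have h10 := hK'.big.ht
  have hg := goodCut_om' hK'.big.hc hK'.at'.top ho (by omega)
  refine rest_NB HC hK'.at' (w := zb c K') ⟨le_rfl, Or.inl rfl⟩ (by omega) le_rfl
    (hg.isCut' (Nat.zero_le _) hg.1 le_rfl) (Or.inr (Or.inl rfl)) (fun s h1 h2 => ?_)
  rw [cell_above hK'.at'.top (om_self ho) (by omega) h2]
  trivial

/-- the small cells above Omega at both times -/
lemma mid_eq {K K' o : ℕ} (hK : Sc c e1 K) (hK' : Sc c e1 K') (hN : NearK2 c K K')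
    (ho : OmAt c K o) (ho' : OmAt c K' o) :
    bodyTo c K (o + Ld c o) (zb c K') = bodyTo c K' (o + Ld c o) (zb c K') := by
  have hz := hN.zbm
  refine rest_eq (fun s h1 h2 => ?_)
  rw [cell_above hK.at'.top (om_self ho) (by omega) (by omega),
    cell_above hK'.at'.top (om_self ho') (by omega) h2]
  exact ⟨rfl, trivial⟩

/-- **the bound with blocks** -/
theorem near_T {E : ℕ} {G : Geo} {Δ : ℕ → Dt} (HC : NearCodes2 c e1 D μ A QW QH)
    (HL : Link c D QW QH G Δ) (hG : G.Ok) (hTL : TopList G Δ) {K K' : ℕ} (hn : G.Near K K')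
    (hK : Sc c e1 K) (hK' : Sc c e1 K') (hN : NearK2 c K K') (hE : ExpOK c K' E)
    (hT : G.isT K ∨ G.isT K') {h h' : Hash} (hh1 : OKh (nf c K) (h0 D Δ c K) h)
    (hh2 : OKh (nf c K') (h0 D Δ c K') h') (ν : ℕ) :
    cnt (lay D c K) (lay D c K') h h' ν ≤
      μ ^ (kws c (bodyTo c K' 0 (om c K')) + E) * A *
        lc (4 * μ ^ kws c (bodyTo c K' (om c K' + Ld c (om c K')) (zb c K')) *
          (10 ^ 6 * G.A K * G.b K ^ 3)) := by
  have hc := hK.big.hc
  have hK0' : G.K0 ≤ K' := hn.1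
  have hK0 : G.K0 ≤ K := hn.1.trans hn.2.1
  have hTs : tsL (layL c K) ≠ .none ∨ tsL (layL c K') ≠ .none := by
    rcases hT with hT | hT
    · left; exact (HL.isT K hK0).mp hT
    · right; exact (HL.isT K' hK0').mp hT
  have hom := om_eq hK hK' hN hTs
  have hA := hN.omA
  have hB := hN.omB
  have hL := Ld_pos c (om c K')
  have hoz := hA.top
  have hzt := zb_le hK'.at'.top
  have hbw := hA.wb
  have h10 := hK'.big.ht
  have hep := hK'.at'.top.ep (om c K') (by omega) (by omega)
  have hzm := hN.zbm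
  have hlz := lvl_zb hK.at'.top hK'.at'.top hB hA hzm
  have hlo := lvl_om hK.at'.top hK'.at'.top hB hA
  obtain ⟨n, hcells⟩ := hG.cells K K' hn
  rw [HL.q K' hK0'] at hcells
  have s1 := lay_split (D := D) HL hK0 hK hB (show om c K' ≤ zb c K' by omega) hlz.w1
    hK'.at'.top.zb1.2 hcells
  have s2 := lay_split (D := D) (n := 0) HL hK0' hK' hA (show om c K' ≤ zb c K' by omega)
    hlz.w2 hK'.at'.top.zb1.2 (by rw [HL.q K' hK0']; rfl)
  have b1 := body_om hc hK.at'.top hB (by omega) (w := zb c K') (by omega) hzm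
  have b2 := body_om hc hK'.at'.top hA (by omega) (w := zb c K') (by omega) le_rfl
  have hme := mid_eq hK hK' hN hB hA
  rw [hme] at b1
  have hcellrg : ∀ o, ([.cell (Ld c o) o] : List Reg2).map (Reg2.rg D) =
    [cellRg o (Ld c o) (D.Sd (Ld c o))] := fun _ => rfl
  -- the whole layouts
  have w1 : lay D c K = (bodyTo c K 0 (om c K')).map (Reg2.rg D) ++
      ([cellRg (om c K') (Ld c (om c K')) (D.Sd (Ld c (om c K')))] ++
        ((bodyTo c K' (om c K' + Ld c (om c K')) (zb c K')).map (Reg2.rg D) ++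
          (cl G (zb c K') n ++ [zn G Δ K]))) := by
    rw [s1, b1, List.map_append, List.map_append, hcellrg]
    simp only [List.append_assoc]
  have w2 : lay D c K' = (bodyTo c K' 0 (om c K')).map (Reg2.rg D) ++
      ([cellRg (om c K') (Ld c (om c K')) (D.Sd (Ld c (om c K')))] ++
        ((bodyTo c K' (om c K' + Ld c (om c K')) (zb c K')).map (Reg2.rg D) ++
          [zn G Δ K'])) := by
    rw [s2, b2, List.map_append, List.map_append, hcellrg]
    simp only [List.append_assoc]
    rfl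
  -- the lower part
  have hlow := low_NBw HC hK.at' hK'.at' hK.big hK'.big hE hN hlo (by omega)
    (fun b j j' h => unit_le_om hK.at'.top h.hj h.unit hB)
    (fun f j j' h => block_le_om hK.at'.top (by
      have := h.adj
      have := h.act
      omega) h.hj h.block hB)
  rw [← ts_body hK.at'.top hB le_rfl hlo.w1, ← ts_body hK'.at'.top hA le_rfl hlo.w2] at hlow
  have hMid := mid_NB HC hK' hA
  have hMc : Chain (om c K' + Ld c (om c K'))
      ((bodyTo c K' (om c K' + Ld c (om c K')) (zb c K')).map (Reg2.rg D)) (zb c K') := by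
    have hg := goodCut_om' hc hK'.at'.top hA (by omega)
    exact chain_bodyTo HC.len hK'.at'.ok hK'.at'.top hK'.at'.epo (by omega)
      ⟨le_rfl, Or.inl rfl⟩ (hg.isCut' (Nat.zero_le _) hg.1 le_rfl)
  -- the bodies of the two scales
  have hidx : (bodyTo c K 0 (om c K')).length = idxOm c K := by
    unfold idxOm
    rw [hom]
  have hbodyK : body c K = bodyTo c K 0 (om c K') ++ ([.cell (Ld c (om c K')) (om c K')] ++
      (bodyTo c K' (om c K' + Ld c (om c K')) (zb c K') ++
        bodyTo c K (zb c K') (zb c K))) := by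
    rw [body_eq, bodyTo_append (Nat.zero_le _) hzm (hlz.w1.isCut' (Nat.zero_le _) hzm le_rfl), b1]
    simp only [List.append_assoc]
  have hbodyK' : body c K' = bodyTo c K' 0 (om c K') ++ ([.cell (Ld c (om c K')) (om c K')] ++
      (bodyTo c K' (om c K' + Ld c (om c K')) (zb c K') ++ [])) := by
    rw [body_eq, b2, List.append_nil]
  have hMne : bodyTo c K' (om c K' + Ld c (om c K')) (zb c K') ≠ [] := by
    unfold bodyTo
    rw [runs_of_lt _ (show om c K' + Ld c (om c K') < zb c K' by omega), List.flatMap_cons]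
    intro h1
    exact toRegs2_ne_nil _ (List.append_eq_nil_iff.mp h1).1
  have hcl : (bodyTo c K (zb c K') (zb c K)).map (Reg2.rg D) = cl G (zb c K') n := by
    have hepz := hK'.at'.top.ep (zb c K') hK'.at'.top.wbz hzt
    exact cells_cl (G := G) hc HL.ln HL.Sd n (zb c K') (zb c K) (by
      rw [← hcells, HL.q K hK0]) (by omega) hK'.at'.top.zb1.2
      (fun s h1 h2 => cell_above hK.at'.top (om_self hB) (by omega) h2)
  rw [w1, w2]
  refine glue_T (o := om c K') (l := Ld c (om c K')) (z := zb c K')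
    (H := (Δ K).H) (H' := (Δ K').H) (S := (Δ K).S) (S' := (Δ K').S)
    (P := fun g s => ∀ y ∈ Vs (cl G (zb c K') n), nexts (cl G (zb c K') n) g y [] = s)
    (P' := fun g s => g [] = s) hlow (chain_low HC hK hlo.w1) (chain_low HC hK' hlo.w2) hMid hMc
    ?_ ?_ ?_ ?_ ?_ ?_ ?_ ?_ ?_ ν
  · refine (above_cl n _).append (above_single ?_)
    show zb c K' ≤ G.q K
    rw [HL.q K hK0]
    exact hzm
  · refine above_single ?_
    show zb c K' ≤ G.q K'
    rw [HL.q K' hK0']
  · intro s
    exact ⟨fun _ => s, fun y _ => by rw [nexts_const]⟩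
  · intro s
    exact ⟨fun _ => s, rfl⟩
  · intro L hL m n' f hf
    have hL2 := HL.LF K K' hn hT L hL
    have hlO : G.lO K = Ld c (om c K') := by rw [HL.lO K hK0, hom]
    have hLam : Lam G Δ K K' L m = LamA (D.Sd (Ld c (om c K'))) (Ld c (om c K')) (Δ K).H
        (Δ K').H L m := by
      unfold Lam LamA
      rw [hlO, HL.Sd]
    have h1 := hTL K K' n hn hT (by rw [HL.q K' hK0']; exact hcells) L hL2 m n' f
    rw [hLam, HL.q K' hK0'] at h1
    exact h1 hf
  · intro x hx
    have h1 := om_hash hK.at'.ok hK.at'.top (D := D) (Δ := Δ) (by rw [hom]; exact hB) hh1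
      (x := x) (by rw [hom]; exact hx)
    rw [hom] at h1
    exact h1
  · intro x hx
    exact om_hash hK'.at'.ok hK'.at'.top (D := D) (Δ := Δ) hA hh2 hx
  · intro x hx ω hω y hy u hu
    rw [← hcl] at hu ⊢
    exact zone_hash hh1 hidx hbodyK (by
      intro h1
      exact hMne (List.append_eq_nil_iff.mp h1).1) hx hy hu
  · intro x hx ω hω y hy
    have h1 := zone_hash (D := D) (Δ := Δ) hh2 rfl hbodyK' (by simpa using hMne) hx hy
      (u := []) (ω := ω) (by simp)
    exact h1

/-- **the near theorem** -/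
theorem near_all {E : ℕ} {G : Geo} {Δ : ℕ → Dt} (hc : 10 ≤ c)
    (HC : NearCodes2 c e1 D μ A QW QH) (HL : Link c D QW QH G Δ)
    (hG : G.Ok) (hT0 : TopZero G Δ) (hTL : TopList G Δ)
    (hAt : ∀ K, G.K0 ≤ K → At c e1 K ∧ 10 ≤ epo c K ∧ 4 * c ≤ kk (epo c K) + 8)
    (hN : ∀ K K', G.Near K K' → NearK2 c K K') {K K' : ℕ} (hn : G.Near K K')
    (hE : 2 ≤ E ∧ hh c (epo c K') / ll c (epo c K') ≤ E ∧
      hh c (epo c K' + 1) / ll c (epo c K' + 1) ≤ E ∧
      CC c ^ epo c K' / hh c (epo c K') ≤ E ∧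
      CC c ^ (epo c K' + 1) / hh c (epo c K' + 1) ≤ E) {h h' : Hash}
    (hh1 : OKh (nf c K) (h0 D Δ c K) h) (hh2 : OKh (nf c K') (h0 D Δ c K') h') (ν : ℕ) :
    ((Vs (lay D c K) ×ˢ Vs (lay D c K')).filter (fun q =>
      val (lay D c K) h q.1 + val (lay D c K') h' q.2 = ν)).card ≤
      nearB μ A ((body c K').length + 2 * E) E (10 ^ 6 * G.A K * G.b K ^ 3) := by
  have hK0' : G.K0 ≤ K' := hn.1
  have hK0 : G.K0 ≤ K := hn.1.trans hn.2.1
  have hμ : 1 ≤ μ := le_trans (by norm_num) HC.mu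
  obtain ⟨a1, a2, a3⟩ := hAt K hK0
  obtain ⟨a1', a2', a3'⟩ := hAt K' hK0'
  have hK : Sc c e1 K := ⟨a1, ⟨hc, a2, a3⟩⟩
  have hK' : Sc c e1 K' := ⟨a1', ⟨hc, a2', a3'⟩⟩
  have hE' : ExpOK c K' E := ⟨hE.1, hE.2.1, hE.2.2.1, hE.2.2.2.1, hE.2.2.2.2⟩
  have hNK := hN K K' hn
  have hkw := kws_body a1'.top hE'
  set M := (body c K').length + 2 * E with hM
  set BT := 10 ^ 6 * G.A K * G.b K ^ 3 with hBT
  have hb1 : 1 ≤ G.b K := le_trans (by norm_num) (hG.b_pos K hK0)
  show cnt (lay D c K) (lay D c K') h h' ν ≤ _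
  by_cases hT : G.isT K ∨ G.isT K'
  · refine (near_T HC HL hG hTL hn hK hK' hNK hE' hT hh1 hh2 ν).trans ?_
    have hL := Ld_pos c (om c K')
    have hoz := hNK.omA.top
    have hzt := zb_le a1'.top
    have hbw := hNK.omA.wb
    have hep := a1'.top.ep (om c K') (by omega) (by omega)
    have b2 := body_om hc a1'.top hNK.omA (by omega) (w := zb c K') (by omega) le_rfl
    have hsum : kws c (bodyTo c K' 0 (om c K')) +
        kws c (bodyTo c K' (om c K' + Ld c (om c K')) (zb c K')) ≤ M := by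
      refine le_trans ?_ hkw
      rw [body_eq, b2, kws_append, kws_append]
      omega
    generalize kws c (bodyTo c K' 0 (om c K')) = k1 at hsum ⊢
    generalize kws c (bodyTo c K' (om c K' + Ld c (om c K')) (zb c K')) = k2 at hsum ⊢
    unfold lc nearB
    calc μ ^ (k1 + E) * A * (4 * μ ^ k2 * BT * (Nat.log 2 (4 * μ ^ k2 * BT) + 1))
        = μ ^ (k1 + k2 + E) * A * (4 * BT * (Nat.log 2 (4 * μ ^ k2 * BT) + 1)) := by
          rw [show k1 + k2 + E = k1 + E + k2 by ring, pow_add _ _ k2]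
          ring
      _ ≤ μ ^ (M + E) * A * (4 * BT * (Nat.log 2 (4 * μ ^ M * BT) + 1)) := by
          refine Nat.mul_le_mul (Nat.mul_le_mul_right _
            (Nat.pow_le_pow_right hμ (by omega))) (Nat.mul_le_mul_left _ ?_)
          refine Nat.add_le_add_right (Nat.log_mono_right ?_) 1
          exact Nat.mul_le_mul_right _ (Nat.mul_le_mul_left _
            (Nat.pow_le_pow_right hμ (by omega)))
  · push Not at hT
    have h1 := near_zero HC HL hG hT0 hn hK hK' hNK hE' hT.1 hT.2 h h' ν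
    refine le_trans h1 ?_
    unfold nearB
    have h2 : 1600 * G.A K * G.b K ≤ 4 * BT * (Nat.log 2 (4 * μ ^ M * BT) + 1) := by
      refine le_trans ?_ (Nat.le_mul_of_pos_right _ (Nat.succ_pos _))
      rw [hBT]
      have h3 : G.b K ≤ G.b K ^ 3 := Nat.le_self_pow (by norm_num) _
      calc 1600 * G.A K * G.b K ≤ 4 * 10 ^ 6 * G.A K * G.b K ^ 3 := by
            refine Nat.mul_le_mul (Nat.mul_le_mul_right _ (by norm_num)) h3
        _ = 4 * (10 ^ 6 * G.A K * G.b K ^ 3) := by ring
    exact Nat.mul_le_mul (Nat.mul_le_mul_right _ (Nat.pow_le_pow_right hμ (by omega))) h2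

end Pool.Agent.E3
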